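import Pool.Agent.W839.Ch.Bits

/-! # Independent bits: product formulas -/

set_option autoImplicit false
open scoped Classical
open Finset Filter Topology

namespace Pool.Agent.V7H19.BC

open Pool.Agent.W839.Ch

section
variable {ι : Type} [Fintype ι]

/-- product formula -/
lemma EB_prod (p : ℝ) (g : ι → Bool → ℝ) :
    EB p (fun ω : ι → Bool => ∏ i, g i (ω i)) = ∏ i, (p * g i true + (1 - p) * g i false) := by
  unfold EB
  have h : ∀ i, p * g i true + (1-p) * g i false
      = ∑ b ∈ (Finset.univ : Finset Bool), bw p b * g i b := by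
    intro i; simp [bw]
  simp_rw [h]
  rw [Finset.prod_univ_sum, Fintype.piFinset_univ]
  refine Finset.sum_congr rfl (fun ω _ => ?_)
  rw [Finset.prod_mul_distrib]

lemma EB_add (p : ℝ) (F G : (ι → Bool) → ℝ) :
    EB p (fun ω => F ω + G ω) = EB p F + EB p G := by
  unfold EB
  rw [← Finset.sum_add_distrib]
  exact Finset.sum_congr rfl (fun ω _ => by ring)

lemma EB_sum {J : Type*} (p : ℝ) (s : Finset J) (F : J → (ι → Bool) → ℝ) :
    EB p (fun ω => ∑ j ∈ s, F j ω) = ∑ j ∈ s, EB p (F j) := by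
  unfold EB
  rw [Finset.sum_comm]
  refine Finset.sum_congr rfl (fun ω _ => ?_)
  rw [Finset.mul_sum]

/-- all bits in `T` equal `b` -/
lemma EB_all (p : ℝ) (T : Finset ι) (b : Bool) :
    EB p (fun ω : ι → Bool => if ∀ i ∈ T, ω i = b then (1:ℝ) else 0) = (bw p b)^T.card := by
  obtain ⟨g, hg⟩ : ∃ g : ι → Bool → ℝ, g = fun (i : ι) (c : Bool) =>
    if i ∈ T then (if c = b then (1:ℝ) else 0) else 1 := ⟨_, rfl⟩
  have h : (fun ω : ι → Bool => if ∀ i ∈ T, ω i = b then (1:ℝ) else 0)
      = fun ω => ∏ i, g i (ω i) := by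
    funext ω
    by_cases hω : ∀ i ∈ T, ω i = b
    · rw [if_pos hω]
      symm
      apply Finset.prod_eq_one
      intro i _
      by_cases hi : i ∈ T
      · simp [hg, hi, hω i hi]
      · simp [hg, hi]
    · rw [if_neg hω]
      push Not at hω
      obtain ⟨i, hi, hne⟩ := hω
      symm
      apply Finset.prod_eq_zero (Finset.mem_univ i)
      simp [hg, hi, hne]
  rw [h, EB_prod]
  have h2 : ∀ i : ι, p * g i true + (1 - p) * g i false
      = if i ∈ T then bw p b else 1 := by
    intro i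
    by_cases hi : i ∈ T
    · cases b <;> simp [hg, hi, bw]
    · simp [hg, hi]
  rw [Finset.prod_congr rfl (fun i _ => h2 i), Finset.prod_ite_mem, Finset.univ_inter,
    Finset.prod_const]

/-- indicator that two bits agree -/
noncomputable def eqv (e f : ι) (ω : ι → Bool) : ℝ := if ω e = ω f then 1 else 0

lemma EB_eqv (p : ℝ) {e f : ι} (h : e ≠ f) : EB p (eqv e f) = p ^ 2 + (1 - p) ^ 2 := by
  have h1 : (eqv e f : (ι → Bool) → ℝ) = fun ω =>
      (if ∀ i ∈ ({e, f} : Finset ι), ω i = true then (1:ℝ) else 0)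
      + (if ∀ i ∈ ({e, f} : Finset ι), ω i = false then (1:ℝ) else 0) := by
    funext ω
    unfold eqv
    cases h1 : ω e <;> cases h2 : ω f <;> simp [h1, h2]
  rw [h1, EB_add, EB_all, EB_all, Finset.card_pair h]
  simp [bw]

lemma EB_eqv3 (p : ℝ) {e f g : ι} (h : e ≠ f) (h' : e ≠ g) (h'' : f ≠ g) :
    EB p (fun ω => eqv e f ω * eqv e g ω) = p ^ 3 + (1 - p) ^ 3 := by
  have h1 : (fun ω : ι → Bool => eqv e f ω * eqv e g ω) = fun ω =>
      (if ∀ i ∈ ({e, f, g} : Finset ι), ω i = true then (1:ℝ) else 0)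
      + (if ∀ i ∈ ({e, f, g} : Finset ι), ω i = false then (1:ℝ) else 0) := by
    funext ω
    unfold eqv
    cases h1 : ω e <;> cases h2 : ω f <;> cases h3 : ω g <;> simp [h1, h2, h3]
  have hc : ({e, f, g} : Finset ι).card = 3 := Finset.card_eq_three.2 ⟨e, f, g, h, h', h'', rfl⟩
  rw [h1, EB_add, EB_all, EB_all, hc]
  simp [bw]

/-- functions of disjoint sets of bits -/
lemma EB_indep (p : ℝ) (S : Finset ι) (F G : (ι → Bool) → ℝ)
    (hF : ∀ ω ω' : ι → Bool, (∀ i ∈ S, ω i = ω' i) → F ω = F ω')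
    (hG : ∀ ω ω' : ι → Bool, (∀ i, i ∉ S → ω i = ω' i) → G ω = G ω') :
    EB p (fun ω => F ω * G ω) = EB p F * EB p G := by
  have := blk ι Bool p (fun i => some (decide (i ∈ S))) (fun b => if b then F else G) (by
    intro j ω ω' h
    cases j with
    | true =>
      simp only [if_true]
      exact hF _ _ (fun i hi => h i (by simp [hi]))
    | false =>
      simp only [Bool.false_eq_true, if_false]
      exact hG _ _ (fun i hi => h i (by simp [hi])))
  simpa using this

lemma EB_eqv4 (p : ℝ) {e f g h : ι} (h1 : e ≠ f) (h2 : g ≠ h) (h3 : e ≠ g) (h4 : e ≠ h)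
    (h5 : f ≠ g) (h6 : f ≠ h) :
    EB p (fun ω => eqv e f ω * eqv g h ω) = (p ^ 2 + (1 - p) ^ 2) ^ 2 := by
  rw [EB_indep p {e, f} (eqv e f) (eqv g h), EB_eqv p h1, EB_eqv p h2]
  · ring
  · intro ω ω' hω
    have a1 := hω e (by simp)
    have a2 := hω f (by simp)
    unfold eqv
    rw [a1, a2]
  · intro ω ω' hω
    have a1 := hω g (by simp [h3.symm, h5.symm])
    have a2 := hω h (by simp [h4.symm, h6.symm])
    unfold eqv
    rw [a1, a2]

omit [Fintype ι] in
lemma eqv_sq (e f : ι) (ω : ι → Bool) : eqv e f ω * eqv e f ω = eqv e f ω := by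
  unfold eqv; split_ifs <;> simp

omit [Fintype ι] in
lemma eqv_comm (e f : ι) (ω : ι → Bool) : eqv e f ω = eqv f e ω := by
  unfold eqv; simp [eq_comm]

end

end Pool.Agent.V7H19.BC
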