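import Pool.Agent.V7H19.BC.Moment

/-! # Counting and the numerical bound for the second moment -/

set_option autoImplicit false
open scoped Classical
open Finset Filter Topology

namespace Pool.Agent.V7H19.BC

lemma count {V : Type*} (V1 I : Finset V) (k i : ℕ) (hI : I ⊆ V1) (cI : I.card = k) (hi : i ≤ k) :
    ((V1.powersetCard k).filter (fun I' => (I ∩ I').card = i)).card
      ≤ k.choose i * (V1.card - k).choose (k - i) := by
  have h1 : (I.powersetCard i ×ˢ (V1 \ I).powersetCard (k - i)).card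
      = k.choose i * (V1.card - k).choose (k - i) := by
    rw [Finset.card_product, Finset.card_powersetCard, Finset.card_powersetCard, cI,
      Finset.card_sdiff_of_subset hI, cI]
  rw [← h1]
  apply Finset.card_le_card_of_injOn (fun I' => (I ∩ I', I' \ I))
  · intro I' hI'
    rw [Finset.mem_coe, Finset.mem_filter, Finset.mem_powersetCard] at hI'
    rw [Finset.mem_coe, Finset.mem_product, Finset.mem_powersetCard, Finset.mem_powersetCard]
    refine ⟨⟨Finset.inter_subset_left, hI'.2⟩, Finset.sdiff_subset_sdiff hI'.1.1 le_rfl, ?_⟩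
    have := Finset.card_sdiff_add_card_inter I' I
    have h2 := hI'.2
    rw [Finset.inter_comm] at h2
    have h3 := hI'.1.2
    show (I' \ I).card = k - i
    omega
  · intro A _ B _ hAB
    have e1 : I ∩ A = I ∩ B := congrArg Prod.fst hAB
    have e2 : A \ I = B \ I := congrArg Prod.snd hAB
    ext x
    by_cases hx : x ∈ I
    · have := Finset.ext_iff.1 e1 x
      simpa [hx] using this
    · have := Finset.ext_iff.1 e2 x
      simpa [hx] using this

lemma choose_ratio (n k i : ℕ) (hik : i ≤ k) (hkn : k ≤ n) :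
    (n:ℝ) ^ i * ((n - i).choose (k - i) : ℝ) ≤ (n.choose k : ℝ) * (k:ℝ) ^ i := by
  induction i with
  | zero => simp
  | succ i ih =>
    have h1 := ih (by omega)
    -- (n - i) * C(n-i-1, k-i-1) = C(n-i,k-i) * (k-i)
    have h2 : (n - i) * ((n - (i + 1)).choose (k - (i + 1))) = (n - i).choose (k - i) * (k - i) := by
      have := Nat.add_one_mul_choose_eq (n - (i+1)) (k - (i+1))
      have e1 : n - (i+1) + 1 = n - i := by omega
      have e2 : k - (i+1) + 1 = k - i := by omega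
      rw [e1, e2] at this
      exact this
    have h3 : ((n:ℝ) - i) * ((n - (i + 1)).choose (k - (i + 1)) : ℝ)
        = ((n - i).choose (k - i) : ℝ) * ((k:ℝ) - i) := by
      have := congrArg (Nat.cast (R := ℝ)) h2
      rw [Nat.cast_mul, Nat.cast_mul, Nat.cast_sub (by omega), Nat.cast_sub (by omega)] at this
      exact this
    have hni : (0:ℝ) < (n:ℝ) - i := by
      have : (i:ℝ) + 1 ≤ n := by exact_mod_cast (by omega : i + 1 ≤ n)
      linarith
    have hki : (0:ℝ) < (k:ℝ) - i := by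
      have : (i:ℝ) + 1 ≤ k := by exact_mod_cast hik
      linarith
    have hkn' : (k:ℝ) ≤ n := by exact_mod_cast hkn
    -- n * (k - i) ≤ k * (n - i)
    have h4 : (n:ℝ) * ((k:ℝ) - i) ≤ k * ((n:ℝ) - i) := by
      have : (0:ℝ) ≤ i := by positivity
      nlinarith
    have h5 : (n:ℝ) * ((n - (i + 1)).choose (k - (i + 1)) : ℝ)
        ≤ k * ((n - i).choose (k - i) : ℝ) := by
      have hc : (0:ℝ) ≤ ((n - i).choose (k - i) : ℝ) := by positivity
      have h6 : ((n:ℝ) - i) * ((n:ℝ) * ((n - (i + 1)).choose (k - (i + 1)) : ℝ))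
          ≤ ((n:ℝ) - i) * (k * ((n - i).choose (k - i) : ℝ)) := by
        calc ((n:ℝ) - i) * ((n:ℝ) * ((n - (i + 1)).choose (k - (i + 1)) : ℝ))
            = n * (((n:ℝ) - i) * ((n - (i + 1)).choose (k - (i + 1)) : ℝ)) := by ring
          _ = ((n:ℝ) * ((k:ℝ) - i)) * ((n - i).choose (k - i) : ℝ) := by rw [h3]; ring
          _ ≤ (k * ((n:ℝ) - i)) * ((n - i).choose (k - i) : ℝ) :=
              mul_le_mul_of_nonneg_right h4 hc
          _ = _ := by ring
      exact le_of_mul_le_mul_left h6 hni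
    calc (n:ℝ) ^ (i + 1) * ((n - (i + 1)).choose (k - (i + 1)) : ℝ)
        = (n:ℝ) ^ i * ((n:ℝ) * ((n - (i + 1)).choose (k - (i + 1)) : ℝ)) := by ring
      _ ≤ (n:ℝ) ^ i * (k * ((n - i).choose (k - i) : ℝ)) :=
          mul_le_mul_of_nonneg_left h5 (by positivity)
      _ = ((n:ℝ) ^ i * ((n - i).choose (k - i) : ℝ)) * k := by ring
      _ ≤ ((n.choose k : ℝ) * (k:ℝ) ^ i) * k := mul_le_mul_of_nonneg_right h1 (by positivity)
      _ = _ := by ring

lemma choose_le_pow' (n k : ℕ) : (n.choose k : ℝ) ≤ (n:ℝ) ^ k := by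
  exact_mod_cast Nat.choose_le_pow n k

/-- small overlap -/
lemma small_i (n1 k i : ℕ) (hik : i ≤ k) (hkn : k ≤ n1) (hn : 0 < n1) :
    (k.choose i * (n1 - k).choose (k - i) : ℝ) ≤ (n1.choose k : ℝ) * ((k:ℝ) ^ 2 / n1) ^ i := by
  have h1 := choose_ratio n1 k i hik hkn
  have h2 : ((n1 - k).choose (k - i) : ℝ) ≤ ((n1 - i).choose (k - i) : ℝ) := by
    exact_mod_cast Nat.choose_le_choose _ (by omega)
  have h3 := choose_le_pow' k i
  have hn' : (0:ℝ) < n1 := by exact_mod_cast hn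
  rw [div_pow, mul_div_assoc', le_div_iff₀ (by positivity)]
  calc (k.choose i : ℝ) * ((n1 - k).choose (k - i) : ℝ) * (n1:ℝ) ^ i
      ≤ (k:ℝ) ^ i * ((n1 - i).choose (k - i) : ℝ) * (n1:ℝ) ^ i := by gcongr
    _ = (k:ℝ) ^ i * ((n1:ℝ) ^ i * ((n1 - i).choose (k - i) : ℝ)) := by ring
    _ ≤ (k:ℝ) ^ i * ((n1.choose k : ℝ) * (k:ℝ) ^ i) := by gcongr
    _ = _ := by rw [← pow_mul]; ring

/-- large overlap -/
lemma large_i (n1 k j : ℕ) (hjk : j ≤ k) :
    (k.choose (k - j) * (n1 - k).choose (k - (k - j)) : ℝ) ≤ ((k:ℝ) * n1) ^ j := by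
  have e : k - (k - j) = j := by omega
  rw [e, Nat.choose_symm hjk, mul_pow]
  have h1 := choose_le_pow' k j
  have h2 : ((n1 - k).choose j : ℝ) ≤ (n1:ℝ) ^ j := by
    refine le_trans (choose_le_pow' (n1 - k) j) ?_
    gcongr
    omega
  gcongr

lemma two_choose (i : ℕ) : 2 * i.choose 2 = i * (i - 1) := by
  rw [Nat.choose_two_right]
  exact Nat.mul_div_cancel' (Nat.even_mul_pred_self i).two_dvd

lemma Tf_eq (m i : ℕ) : Tf (7/16) m i = (4/3:ℝ) ^ (i * (i - 1)) *
    (1 + 2 / m * (4288/4225) ^ i + 16 / (9 * (m:ℝ) ^ 2) * (128/65) ^ i) := by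
  unfold Tf
  have e1 : ((1 - (7/16:ℝ)) ^ (i.choose 2))⁻¹ = (4/3:ℝ) ^ (i * (i - 1)) := by
    rw [← two_choose, pow_mul, ← inv_pow]
    norm_num
  have e2 : ((7/16:ℝ) ^ 3 + (1 - 7/16) ^ 3) / ((7/16) ^ 2 + (1 - 7/16) ^ 2) ^ 2 = 4288/4225 := by
    norm_num
  have e3 : (((7/16:ℝ) ^ 2 + (1 - 7/16) ^ 2) ^ i)⁻¹ = (128/65) ^ i := by
    rw [← inv_pow]
    norm_num
  have e4 : 1 / ((1 - (7/16:ℝ)) * (m:ℝ) ^ 2) = 16 / (9 * (m:ℝ) ^ 2) := by
    norm_num
    ring
  rw [e1, e2, e3, e4]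

end Pool.Agent.V7H19.BC
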