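import Pool.Agent.V7H19.BC.Joint

/-! # A twin pair over an independent set saves one biclique -/

set_option autoImplicit false
open scoped Classical
open Finset Filter Topology

namespace Pool.Agent.V7H19.BC

/-- the set of sizes of biclique partitions, as in the frozen statement -/
def BS {n : ℕ} (G : SimpleGraph (Fin n)) : Set ℕ :=
  {k : ℕ | ∃ A B : Fin k → Finset (Fin n),
              (∀ i, Disjoint (A i) (B i)) ∧
              ∀ u v : Fin n,
                (G.Adj u v → ∃! i, (u ∈ A i ∧ v ∈ B i) ∨ (v ∈ A i ∧ u ∈ B i)) ∧
                (¬ G.Adj u v → ∀ i, ¬ (u ∈ A i ∧ v ∈ B i))}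

lemma BS_of_fintype {n k : ℕ} (G : SimpleGraph (Fin n)) {ι : Type} [Fintype ι]
    (hι : Fintype.card ι = k) (A B : ι → Finset (Fin n)) (h1 : ∀ i, Disjoint (A i) (B i))
    (h2 : ∀ u v : Fin n, G.Adj u v → ∃! i, (u ∈ A i ∧ v ∈ B i) ∨ (v ∈ A i ∧ u ∈ B i))
    (h3 : ∀ u v : Fin n, ¬ G.Adj u v → ∀ i, ¬ (u ∈ A i ∧ v ∈ B i)) : k ∈ BS G := by
  obtain e := Fintype.equivFinOfCardEq hι
  refine ⟨fun i => A (e.symm i), fun i => B (e.symm i), fun i => h1 _, fun u v => ⟨?_, ?_⟩⟩
  · intro h
    obtain ⟨i, hi, hu⟩ := h2 u v h
    refine ⟨e i, by simpa using hi, ?_⟩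
    intro j hj
    have := hu (e.symm j) hj
    rw [← this]
    simp
  · intro h i
    exact h3 u v h _

lemma twin_BS {n k : ℕ} (G : SimpleGraph (Fin n)) (I : Finset (Fin n)) (u v : Fin n)
    (hI : I.card = k) (hu : u ∉ I) (hv : v ∉ I) (huv : u ≠ v) (hS : St I u v G) :
    n - k - 1 ∈ BS G := by
  obtain ⟨h1, h2, h3⟩ := hS
  obtain ⟨S, hSd⟩ : ∃ S : Finset (Fin n), S = insert u (insert v I) := ⟨_, rfl⟩
  have cS : S.card = k + 2 := by
    rw [hSd, Finset.card_insert_of_notMem, Finset.card_insert_of_notMem hv, hI]
    rw [Finset.mem_insert]
    push Not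
    exact ⟨huv, hu⟩
  have hle : k + 2 ≤ n := by
    have := Finset.card_le_univ S
    rw [Fintype.card_fin] at this
    omega
  have memS : ∀ x, x ∈ S ↔ x = u ∨ x = v ∨ x ∈ I := by
    intro x; rw [hSd]; simp
  have hcard : Fintype.card (Option {x : Fin n // x ∉ S}) = n - k - 1 := by
    rw [Fintype.card_option, Fintype.card_subtype_compl (fun x => x ∈ S), Fintype.card_fin,
      Fintype.card_coe, cS]
    omega
  refine BS_of_fintype G hcard
    (fun o => match o with
      | none => {u, v}
      | some t => {t.1})
    (fun o => match o with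
      | none => I.filter (fun x => G.Adj x u)
      | some t => Finset.univ.filter (fun x => G.Adj t.1 x ∧ (x ∉ S → t.1 < x)))
    ?_ ?_ ?_
  · rintro (_ | t)
    · rw [Finset.disjoint_left]
      intro x hx hx'
      have h4 := (Finset.mem_filter.1 hx').1
      simp only [Finset.mem_insert, Finset.mem_singleton] at hx
      rcases hx with rfl | rfl
      · exact hu h4
      · exact hv h4
    · rw [Finset.disjoint_left]
      intro x hx hx'
      have h4 := (Finset.mem_filter.1 hx').2.1
      simp only [Finset.mem_singleton] at hx
      subst hx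
      exact G.loopless.irrefl _ h4
  · intro a b hab
    by_cases ha : a ∈ S
    · by_cases hb : b ∈ S
      · -- both in S
        have hcase : (a = u ∨ a = v) ∧ b ∈ I ∨ (b = u ∨ b = v) ∧ a ∈ I := by
          rw [memS] at ha hb
          rcases ha with rfl | rfl | ha <;> rcases hb with rfl | rfl | hb
          · exact absurd hab (G.loopless.irrefl _)
          · exact absurd hab h2
          · exact Or.inl ⟨Or.inl rfl, hb⟩
          · exact absurd hab.symm h2
          · exact absurd hab (G.loopless.irrefl _)
          · exact Or.inl ⟨Or.inr rfl, hb⟩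
          · exact Or.inr ⟨Or.inl rfl, ha⟩
          · exact Or.inr ⟨Or.inr rfl, ha⟩
          · exact absurd hab (h1 a ha b hb)
        refine ⟨none, ?_, ?_⟩
        · rcases hcase with ⟨hh, hbI⟩ | ⟨hh, haI⟩
          · left
            refine ⟨by simpa using hh, ?_⟩
            refine Finset.mem_filter.2 ⟨hbI, ?_⟩
            rcases hh with rfl | rfl
            · exact hab.symm
            · exact (h3 b hbI).2 hab.symm
          · right
            refine ⟨by simpa using hh, ?_⟩
            refine Finset.mem_filter.2 ⟨haI, ?_⟩
            rcases hh with rfl | rfl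
            · exact hab
            · exact (h3 a haI).2 hab
        · rintro (_ | t) ht
          · rfl
          · exfalso
            rcases ht with ⟨ht, _⟩ | ⟨ht, _⟩
            · simp only [Finset.mem_singleton] at ht
              exact t.2 (ht ▸ ha)
            · simp only [Finset.mem_singleton] at ht
              exact t.2 (ht ▸ hb)
      · -- a in S, b not in S
        refine ⟨some ⟨b, hb⟩, ?_, ?_⟩
        · right
          refine ⟨by simp, ?_⟩
          exact Finset.mem_filter.2 ⟨Finset.mem_univ _, hab.symm, fun h => absurd ha h⟩
        · rintro (_ | t) ht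
          · exfalso
            apply hb
            rw [memS]
            rcases ht with ⟨_, ht⟩ | ⟨ht, _⟩
            · exact Or.inr (Or.inr (Finset.mem_filter.1 ht).1)
            · simp only [Finset.mem_insert, Finset.mem_singleton] at ht
              tauto
          · rcases ht with ⟨ht, _⟩ | ⟨ht, _⟩
            · simp only [Finset.mem_singleton] at ht
              exact absurd (ht ▸ ha) t.2
            · simp only [Finset.mem_singleton] at ht
              congr 1
              exact Subtype.ext ht.symm
    · by_cases hb : b ∈ S
      · refine ⟨some ⟨a, ha⟩, ?_, ?_⟩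
        · left
          refine ⟨by simp, ?_⟩
          exact Finset.mem_filter.2 ⟨Finset.mem_univ _, hab, fun h => absurd hb h⟩
        · rintro (_ | t) ht
          · exfalso
            apply ha
            rw [memS]
            rcases ht with ⟨ht, _⟩ | ⟨_, ht⟩
            · simp only [Finset.mem_insert, Finset.mem_singleton] at ht
              tauto
            · exact Or.inr (Or.inr (Finset.mem_filter.1 ht).1)
          · rcases ht with ⟨ht, _⟩ | ⟨ht, _⟩
            · simp only [Finset.mem_singleton] at ht
              congr 1
              exact Subtype.ext ht.symm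
            · simp only [Finset.mem_singleton] at ht
              exact absurd (ht ▸ hb) t.2
      · -- both outside
        rcases lt_or_gt_of_ne hab.ne with hlt | hlt
        · refine ⟨some ⟨a, ha⟩, ?_, ?_⟩
          · left
            refine ⟨by simp, ?_⟩
            exact Finset.mem_filter.2 ⟨Finset.mem_univ _, hab, fun _ => hlt⟩
          · rintro (_ | t) ht
            · exfalso
              apply ha
              rw [memS]
              rcases ht with ⟨ht, _⟩ | ⟨_, ht⟩
              · simp only [Finset.mem_insert, Finset.mem_singleton] at ht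
                tauto
              · exact Or.inr (Or.inr (Finset.mem_filter.1 ht).1)
            · rcases ht with ⟨ht, _⟩ | ⟨ht, ht'⟩
              · simp only [Finset.mem_singleton] at ht
                congr 1
                exact Subtype.ext ht.symm
              · simp only [Finset.mem_singleton] at ht
                have := (Finset.mem_filter.1 ht').2.2 ha
                rw [← ht] at this
                exact absurd this (not_lt.2 hlt.le)
        · refine ⟨some ⟨b, hb⟩, ?_, ?_⟩
          · right
            refine ⟨by simp, ?_⟩
            exact Finset.mem_filter.2 ⟨Finset.mem_univ _, hab.symm, fun _ => hlt⟩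
          · rintro (_ | t) ht
            · exfalso
              apply ha
              rw [memS]
              rcases ht with ⟨ht, _⟩ | ⟨_, ht⟩
              · simp only [Finset.mem_insert, Finset.mem_singleton] at ht
                tauto
              · exact Or.inr (Or.inr (Finset.mem_filter.1 ht).1)
            · rcases ht with ⟨ht, ht'⟩ | ⟨ht, _⟩
              · simp only [Finset.mem_singleton] at ht
                have := (Finset.mem_filter.1 ht').2.2 hb
                rw [← ht] at this
                exact absurd this (not_lt.2 hlt.le)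
              · simp only [Finset.mem_singleton] at ht
                congr 1
                exact Subtype.ext ht.symm
  · rintro a b hab (_ | t) ⟨h4, h5⟩
    · simp only [Finset.mem_insert, Finset.mem_singleton] at h4
      have h6 := Finset.mem_filter.1 h5
      rcases h4 with rfl | rfl
      · exact hab h6.2.symm
      · exact hab ((h3 b h6.1).1 h6.2).symm
    · simp only [Finset.mem_singleton] at h4
      have h6 := (Finset.mem_filter.1 h5).2.1
      rw [← h4] at h6
      exact hab h6

lemma alpha_le {n k : ℕ} (G : SimpleGraph (Fin n))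
    (h : ¬ ∃ J ∈ (Finset.univ : Finset (Fin n)).powersetCard (k + 1),
      ∀ x ∈ J, ∀ y ∈ J, ¬ G.Adj x y) : Gᶜ.cliqueNum ≤ k := by
  by_contra hk
  push Not at hk
  obtain ⟨s, hs⟩ := Gᶜ.exists_isNClique_cliqueNum
  obtain ⟨t, hts, htc⟩ := Finset.exists_subset_card_eq (s := s) (n := k + 1)
    (by rw [hs.card_eq]; omega)
  apply h
  refine ⟨t, Finset.mem_powersetCard.2 ⟨Finset.subset_univ _, htc⟩, ?_⟩
  intro x hx y hy hxy
  have h1 := hs.isClique (hts hx) (hts hy) hxy.ne
  rw [SimpleGraph.compl_adj] at h1
  exact h1.2 hxy

/-- the deterministic conclusion -/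
lemma det {n k : ℕ} (G : SimpleGraph (Fin n)) (I : Finset (Fin n)) (u v : Fin n)
    (hI : I.card = k) (hu : u ∉ I) (hv : v ∉ I) (huv : u ≠ v) (hS : St I u v G)
    (h : ¬ ∃ J ∈ (Finset.univ : Finset (Fin n)).powersetCard (k + 1),
      ∀ x ∈ J, ∀ y ∈ J, ¬ G.Adj x y) : sInf (BS G) ≠ n - Gᶜ.cliqueNum := by
  have h1 := Nat.sInf_le (twin_BS G I u v hI hu hv huv hS)
  have h2 := alpha_le G h
  have hle : k + 2 ≤ n := by
    have := Finset.card_le_univ (insert u (insert v I))
    rw [Fintype.card_fin, Finset.card_insert_of_notMem, Finset.card_insert_of_notMem hv, hI] at this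
    · omega
    · rw [Finset.mem_insert]
      push Not
      exact ⟨huv, hu⟩
  omega

end Pool.Agent.V7H19.BC
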