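import Pool.Agent.V7H19.BC.Param
import Pool.Agent.V7H19.BC.Det

/-! # The biclique partition number of `G(n, 7/16)` -/

set_option autoImplicit false
open scoped Classical
open Finset Filter Topology

namespace Pool.Agent.V7H19.BC

open Pool.Agent.W839.Ch

lemma card_block (n a b : ℕ) (hb : b ≤ n) :
    ((Finset.univ : Finset (Fin n)).filter (fun x => a ≤ x.val ∧ x.val < b)).card = b - a := by
  rw [← Finset.card_image_of_injective _ Fin.val_injective]
  have : ((Finset.univ : Finset (Fin n)).filter (fun x => a ≤ x.val ∧ x.val < b)).image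
      (fun x => x.val) = Finset.Ico a b := by
    ext y
    simp only [Finset.mem_image, Finset.mem_filter, Finset.mem_univ, true_and, Finset.mem_Ico]
    constructor
    · rintro ⟨x, hx, rfl⟩
      exact hx
    · intro hy
      exact ⟨⟨y, by omega⟩, hy, rfl⟩
  rw [this, Nat.card_Ico]

lemma indep_prob (n : ℕ) (p : ℝ) (J : Finset (Fin n)) :
    Pr n p (fun G => ∀ x ∈ J, ∀ y ∈ J, ¬ G.Adj x y) = (1 - p) ^ (J.card.choose 2) := by
  rw [Pr_eq, ← card_prs]
  have h := EB_all p (prs J) false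
  have e : bw p false = 1 - p := by simp [bw]
  rw [e] at h
  rw [← h]
  congr 1
  funext ω
  have : (∀ x ∈ J, ∀ y ∈ J, ¬ (gr ω).Adj x y) ↔ ∀ i ∈ prs J, ω i = false := by
    constructor
    · intro h i hi
      induction i with
      | _ x y =>
        rw [mem_prs] at hi
        have := h x hi.1 y hi.2.1
        simpa [gr, hi.2.2] using this
    · intro h x hx y hy hxy
      have := h s(x, y) ((mem_prs J x y).2 ⟨hx, hy, hxy.1⟩)
      have h2 := hxy.2
      rw [this] at h2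
      exact absurd h2 (by simp)
  by_cases hh : ∀ i ∈ prs J, ω i = false
  · rw [if_pos hh, if_pos (this.2 hh)]
  · rw [if_neg hh, if_neg (fun h' => hh (this.1 h'))]

/-- For suitable arbitrarily large `n`, equality fails with probability at least `1/4`. -/
theorem fails (l : ℕ) (hl : 3 ≤ l) (HL : 16000 * (l:ℝ) ^ 3 ≤ (4/3:ℝ) ^ l) :
    ∃ n : ℕ, l ≤ n ∧ Pr n (7/16) (fun G => sInf (BS G) = n - Gᶜ.cliqueNum) ≤ 3 / 4 := by
  obtain ⟨n, n1, m, hn, hm, hk, H1, H2, H3, H4, H5, hln⟩ := param l _ rfl hl HL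
  refine ⟨n, hln, ?_⟩
  have p0 : (0:ℝ) < 7/16 := by norm_num
  have p1 : (7/16:ℝ) < 1 := by norm_num
  obtain ⟨V1, hV1⟩ : ∃ V1 : Finset (Fin n),
    V1 = Finset.univ.filter (fun x => 0 ≤ x.val ∧ x.val < n1) := ⟨_, rfl⟩
  obtain ⟨V2, hV2⟩ : ∃ V2 : Finset (Fin n),
    V2 = Finset.univ.filter (fun x => n1 ≤ x.val ∧ x.val < n1 + m) := ⟨_, rfl⟩
  obtain ⟨V3, hV3⟩ : ∃ V3 : Finset (Fin n),
    V3 = Finset.univ.filter (fun x => n1 + m ≤ x.val ∧ x.val < n1 + 2 * m) := ⟨_, rfl⟩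
  have c1 : V1.card = n1 := by rw [hV1, card_block n 0 n1 (by omega)]; omega
  have c2 : V2.card = m := by rw [hV2, card_block n n1 (n1 + m) (by omega)]; omega
  have c3 : V3.card = m := by rw [hV3, card_block n (n1 + m) (n1 + 2 * m) (by omega)]; omega
  have m1 : ∀ x ∈ V1, x.val < n1 := by
    intro x hx; rw [hV1] at hx; exact (Finset.mem_filter.1 hx).2.2
  have m2 : ∀ x ∈ V2, n1 ≤ x.val ∧ x.val < n1 + m := by
    intro x hx; rw [hV2] at hx; exact (Finset.mem_filter.1 hx).2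
  have m3 : ∀ x ∈ V3, n1 + m ≤ x.val := by
    intro x hx; rw [hV3] at hx; exact (Finset.mem_filter.1 hx).2.1
  have h23 : ∀ x ∈ V2, ∀ y ∈ V3, x ≠ y := by
    intro x hx y hy h
    have := (m2 x hx).2
    have := m3 y hy
    rw [h] at *
    omega
  have A1 := exists_prob (n := n) (7/16) p0 p1 n1 m (2 * l) (by omega) hk V1 V2 V3 m1
    (fun x hx => (m2 x hx).1) (fun x hx => le_trans (by omega) (m3 x hx)) h23 c1 c2 c3
    (fun I hI => by
      have := sumT l n1 m _ rfl (by omega) HL H1 H2 hm hk H3 H4 V1 I c1 hI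
      convert this)
  have A2 : Pr n (7/16) (fun G => ∃ J ∈ (Finset.univ : Finset (Fin n)).powersetCard (2 * l + 1),
      ∀ x ∈ J, ∀ y ∈ J, ¬ G.Adj x y) ≤ 1 / 4 := by
    refine le_trans (Pr_exists_le p0.le p1.le _ (fun J G => ∀ x ∈ J, ∀ y ∈ J, ¬ G.Adj x y)) ?_
    have e1 : ∀ J ∈ (Finset.univ : Finset (Fin n)).powersetCard (2 * l + 1),
        Pr n (7/16) (fun G => ∀ x ∈ J, ∀ y ∈ J, ¬ G.Adj x y)
        = ((4/3:ℝ) ^ (2 * l * (2 * l + 1)))⁻¹ := by
      intro J hJ
      rw [indep_prob, (Finset.mem_powersetCard.1 hJ).2]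
      have e2 : 2 * l * (2 * l + 1) = 2 * ((2 * l + 1).choose 2) := by
        rw [two_choose, Nat.add_sub_cancel]; ring
      rw [e2, pow_mul, ← inv_pow]
      norm_num
    rw [Finset.sum_congr rfl e1, Finset.sum_const, Finset.card_powersetCard, Finset.card_univ,
      Fintype.card_fin, nsmul_eq_mul, ← div_eq_mul_inv, div_le_iff₀ (by positivity)]
    linarith
  have A3 : Pr n (7/16) (fun G => ∃ I ∈ V1.powersetCard (2 * l), ∃ u ∈ V2, ∃ v ∈ V3, St I u v G)
      ≤ Pr n (7/16) (fun G => ¬ (sInf (BS G) = n - Gᶜ.cliqueNum))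
        + Pr n (7/16) (fun G => ∃ J ∈ (Finset.univ : Finset (Fin n)).powersetCard (2 * l + 1),
      ∀ x ∈ J, ∀ y ∈ J, ¬ G.Adj x y) := by
    refine le_trans (Pr_mono p0.le p1.le ?_) (Pr_or_le p0.le p1.le _ _)
    rintro G ⟨I, hI, u, hu, v, hv, hS⟩
    by_cases hJ : ∃ J ∈ (Finset.univ : Finset (Fin n)).powersetCard (2 * l + 1),
      ∀ x ∈ J, ∀ y ∈ J, ¬ G.Adj x y
    · exact Or.inr hJ
    · left
      rw [Finset.mem_powersetCard] at hI
      refine det G I u v hI.2 ?_ ?_ (h23 u hu v hv) hS hJ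
      · intro h
        have a := m1 u (hI.1 h)
        have b := (m2 u hu).1
        omega
      · intro h
        have a := m1 v (hI.1 h)
        have b := m3 v hv
        omega
  have A4 := Pr_add_not (n := n) (p := 7/16) bit (fun G => sInf (BS G) = n - Gᶜ.cliqueNum)
  linarith

end Pool.Agent.V7H19.BC
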