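import Pool.Agent.V7H19.BC.Bits2

/-! # Probability that two twin structures are present -/

set_option autoImplicit false
open scoped Classical
open Finset Filter Topology

namespace Pool.Agent.V7H19.BC

open Pool.Agent.W839.Ch

variable {n : ℕ}

/-- unordered pairs inside `I` -/
noncomputable def prs (I : Finset (Fin n)) : Finset (Sym2 (Fin n)) :=
  I.offDiag.image Sym2.mk.uncurry

lemma mem_prs (I : Finset (Fin n)) (x y : Fin n) : s(x, y) ∈ prs I ↔ x ∈ I ∧ y ∈ I ∧ x ≠ y := by
  unfold prs
  rw [Finset.mem_image]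
  constructor
  · rintro ⟨⟨a, b⟩, hab, h⟩
    rw [Finset.mem_offDiag] at hab
    have h' : s(a, b) = s(x, y) := h
    rw [Sym2.eq_iff] at h'
    rcases h' with ⟨rfl, rfl⟩ | ⟨rfl, rfl⟩
    · exact hab
    · exact ⟨hab.2.1, hab.1, hab.2.2.symm⟩
  · intro h
    exact ⟨(x, y), Finset.mem_offDiag.2 h, rfl⟩

lemma card_prs (I : Finset (Fin n)) : (prs I).card = I.card.choose 2 :=
  Sym2.card_image_offDiag I

lemma prs_inter (I J : Finset (Fin n)) : prs I ∩ prs J = prs (I ∩ J) := by
  ext e
  induction e with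
  | _ x y =>
    rw [Finset.mem_inter, mem_prs, mem_prs, mem_prs, Finset.mem_inter, Finset.mem_inter]
    tauto

/-- the structure: `I` is independent, `u` and `v` are not adjacent and have the same neighbours
in `I` -/
def St (I : Finset (Fin n)) (u v : Fin n) (G : SimpleGraph (Fin n)) : Prop :=
  (∀ x ∈ I, ∀ y ∈ I, ¬ G.Adj x y) ∧ ¬ G.Adj u v ∧ ∀ x ∈ I, (G.Adj x u ↔ G.Adj x v)

/-- the edges which have to be absent -/
noncomputable def ab (I : Finset (Fin n)) (u v : Fin n) : Finset (Sym2 (Fin n)) :=
  insert s(u, v) (prs I)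

noncomputable def hl (I : Finset (Fin n)) (u v : Fin n) (e : Sym2 (Fin n))
    (ω : Sym2 (Fin n) → Bool) : ℝ :=
  if e ∈ ab I u v then (if ω e = false then 1 else 0) else 1

noncomputable def hr (I : Finset (Fin n)) (u v x : Fin n) (ω : Sym2 (Fin n) → Bool) : ℝ :=
  if x ∈ I then eqv s(x, u) s(x, v) ω else 1

lemma ind_eq (I : Finset (Fin n)) (u v : Fin n) (hu : u ∉ I) (hv : v ∉ I) (huv : u ≠ v)
    (ω : Sym2 (Fin n) → Bool) :
    (if St I u v (gr ω) then (1:ℝ) else 0) = (∏ e, hl I u v e ω) * ∏ x, hr I u v x ω := by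
  by_cases h : St I u v (gr ω)
  · rw [if_pos h]
    obtain ⟨h1, h2, h3⟩ := h
    symm
    rw [Finset.prod_eq_one, Finset.prod_eq_one, one_mul]
    · intro x _
      unfold hr
      by_cases hx : x ∈ I
      · rw [if_pos hx]
        have h4 := h3 x hx
        have a1 : x ≠ u := fun h => hu (h ▸ hx)
        have a2 : x ≠ v := fun h => hv (h ▸ hx)
        unfold eqv
        simp only [gr, ne_eq, a1, a2, not_false_eq_true, true_and] at h4
        rw [if_pos]
        cases h5 : ω s(x, u) <;> cases h6 : ω s(x, v) <;> simp [h5, h6] at h4 ⊢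
      · rw [if_neg hx]
    · intro e _
      unfold hl
      by_cases he : e ∈ ab I u v
      · rw [if_pos he]
        rw [if_pos]
        unfold ab at he
        rw [Finset.mem_insert] at he
        rcases he with rfl | he
        · simpa [gr, huv] using h2
        · induction e with
          | _ x y =>
            rw [mem_prs] at he
            have := h1 x he.1 y he.2.1
            simpa [gr, he.2.2] using this
      · rw [if_neg he]
  · rw [if_neg h]
    symm
    by_contra hne
    apply h
    have hA : ∏ e, hl I u v e ω ≠ 0 := left_ne_zero_of_mul hne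
    have hB : ∏ x, hr I u v x ω ≠ 0 := right_ne_zero_of_mul hne
    rw [Finset.prod_ne_zero_iff] at hA hB
    have hA' : ∀ e ∈ ab I u v, ω e = false := by
      intro e he
      have := hA e (Finset.mem_univ _)
      unfold hl at this
      rw [if_pos he] at this
      by_contra h'
      rw [if_neg h'] at this
      exact this rfl
    refine ⟨?_, ?_, ?_⟩
    · intro x hx y hy hxy
      have := hA' s(x, y) (by unfold ab; rw [Finset.mem_insert, mem_prs]; exact Or.inr ⟨hx, hy, hxy.1⟩)
      have h2 := hxy.2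
      rw [this] at h2
      exact absurd h2 (by simp)
    · intro hxy
      have := hA' s(u, v) (by unfold ab; simp)
      have h2 := hxy.2
      rw [this] at h2
      exact absurd h2 (by simp)
    · intro x hx
      have := hB x (Finset.mem_univ _)
      unfold hr eqv at this
      rw [if_pos hx] at this
      have h' : ω s(x, u) = ω s(x, v) := by
        by_contra h'
        rw [if_neg h'] at this
        exact this rfl
      have a1 : x ≠ u := fun h => hu (h ▸ hx)
      have a2 : x ≠ v := fun h => hv (h ▸ hx)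
      simp [gr, a1, a2, h']

/-- the block of a pair -/
def blkf (n1 : ℕ) (e : Sym2 (Fin n)) : Option (Sym2 (Fin n) ⊕ Fin n) :=
  if e.inf.val < n1 ∧ n1 ≤ e.sup.val then some (Sum.inr e.inf) else some (Sum.inl e)

lemma blkf_ab (n1 : ℕ) (I : Finset (Fin n)) (u v : Fin n) (hI : ∀ x ∈ I, x.val < n1)
    (hu : n1 ≤ u.val) (hv : n1 ≤ v.val) (e : Sym2 (Fin n)) (he : e ∈ ab I u v) :
    blkf n1 e = some (Sum.inl e) := by
  unfold blkf
  rw [if_neg]
  unfold ab at he
  rw [Finset.mem_insert] at he
  rcases he with rfl | he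
  · rw [Sym2.inf_mk]
    intro h
    have : n1 ≤ (u ⊓ v).val := by
      rcases le_total u v with h' | h'
      · rw [inf_eq_left.2 h']; exact hu
      · rw [inf_eq_right.2 h']; exact hv
    omega
  · induction e with
    | _ x y =>
      rw [mem_prs] at he
      rw [Sym2.sup_mk]
      intro h
      have : (x ⊔ y).val < n1 := by
        rcases le_total x y with h' | h'
        · rw [sup_eq_right.2 h']; exact hI y he.2.1
        · rw [sup_eq_left.2 h']; exact hI x he.1
      omega

lemma blkf_row (n1 : ℕ) (x u : Fin n) (hx : x.val < n1) (hu : n1 ≤ u.val) :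
    blkf n1 s(x, u) = some (Sum.inr x) := by
  unfold blkf
  have h : x ≤ u := by
    rw [Fin.le_def]; omega
  rw [Sym2.inf_mk, Sym2.sup_mk, inf_eq_left.2 h, sup_eq_right.2 h, if_pos ⟨hx, hu⟩]

/-- the local factor -/
noncomputable def cc (p : ℝ) (u v u' v' : Fin n) : ℝ :=
  if u = u' then (if v = v' then p ^ 2 + (1 - p) ^ 2 else p ^ 3 + (1 - p) ^ 3)
  else (if v = v' then p ^ 3 + (1 - p) ^ 3 else (p ^ 2 + (1 - p) ^ 2) ^ 2)

lemma EB_cc (p : ℝ) (x u v u' v' : Fin n) (h1 : u ≠ v) (h2 : u ≠ v') (h3 : u' ≠ v)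
    (h4 : u' ≠ v') :
    EB p (fun ω => eqv s(x, u) s(x, v) ω * eqv s(x, u') s(x, v') ω) = cc p u v u' v' := by
  have key : ∀ a b : Fin n, a ≠ b → s(x, a) ≠ s(x, b) := by
    intro a b hab h
    exact hab (Sym2.congr_right.1 h)
  unfold cc
  by_cases hu : u = u'
  · subst hu
    rw [if_pos rfl]
    by_cases hv : v = v'
    · subst hv
      rw [if_pos rfl]
      have : (fun ω => eqv s(x, u) s(x, v) ω * eqv s(x, u) s(x, v) ω) = eqv s(x, u) s(x, v) := by
        funext ω
        exact eqv_sq _ _ _
      rw [this, EB_eqv p (key u v h1)]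
    · rw [if_neg hv, EB_eqv3 p (key _ _ h1) (key _ _ h2) (key _ _ hv)]
  · rw [if_neg hu]
    by_cases hv : v = v'
    · subst hv
      rw [if_pos rfl]
      have : (fun ω => eqv s(x, u) s(x, v) ω * eqv s(x, u') s(x, v) ω)
          = fun ω => eqv s(x, v) s(x, u) ω * eqv s(x, v) s(x, u') ω := by
        funext ω
        rw [eqv_comm s(x, u), eqv_comm s(x, u')]
      rw [this, EB_eqv3 p (key _ _ h1.symm) (key _ _ h3.symm) (key _ _ hu)]
    · rw [if_neg hv, EB_eqv4 p (key _ _ h1) (key _ _ h4) (key _ _ hu) (key _ _ h2)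
        (key _ _ h3.symm) (key _ _ hv)]

lemma EB_const (p c : ℝ) : EB p (fun _ : Sym2 (Fin n) → Bool => c) = c := by
  have := EB_mul_left (ι := Sym2 (Fin n)) p c (fun _ => 1)
  rw [EB_one] at this
  simpa using this

lemma EB_zero_bit (p : ℝ) (e : Sym2 (Fin n)) :
    EB p (fun ω : Sym2 (Fin n) → Bool => if ω e = false then (1:ℝ) else 0) = 1 - p := by
  have := EB_all p ({e} : Finset (Sym2 (Fin n))) false
  simp only [Finset.mem_singleton, forall_eq, Finset.card_singleton, pow_one, bw] at this
  simpa using this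

/-- joint probability of two structures -/
lemma joint (p : ℝ) (n1 : ℕ) (I I' : Finset (Fin n)) (u v u' v' : Fin n)
    (hI : ∀ x ∈ I, x.val < n1) (hI' : ∀ x ∈ I', x.val < n1)
    (hu : n1 ≤ u.val) (hv : n1 ≤ v.val) (hu' : n1 ≤ u'.val) (hv' : n1 ≤ v'.val)
    (h1 : u ≠ v) (h2 : u ≠ v') (h3 : u' ≠ v) (h4 : u' ≠ v') :
    EB p (fun ω => (if St I u v (gr ω) then (1:ℝ) else 0) * (if St I' u' v' (gr ω) then 1 else 0))
      = (1 - p) ^ (ab I u v ∪ ab I' u' v').card * (cc p u v u' v') ^ (I ∩ I').card *
        (p ^ 2 + (1 - p) ^ 2) ^ ((I \ I').card + (I' \ I).card) := by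
  have nm : ∀ (J : Finset (Fin n)), (∀ x ∈ J, x.val < n1) → ∀ w : Fin n, n1 ≤ w.val → w ∉ J := by
    intro J hJ w hw h
    have := hJ w h
    omega
  obtain ⟨H, hH⟩ : ∃ H : (Sym2 (Fin n) ⊕ Fin n) → (Sym2 (Fin n) → Bool) → ℝ,
    H = fun j ω => Sum.elim (fun e => hl I u v e ω * hl I' u' v' e ω)
      (fun x => hr I u v x ω * hr I' u' v' x ω) j := ⟨_, rfl⟩
  have e1 : (fun ω : Sym2 (Fin n) → Bool =>
      (if St I u v (gr ω) then (1:ℝ) else 0) * (if St I' u' v' (gr ω) then 1 else 0))
      = fun ω => ∏ j, H j ω := by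
    funext ω
    rw [ind_eq I u v (nm I hI u hu) (nm I hI v hv) h1 ω,
      ind_eq I' u' v' (nm I' hI' u' hu') (nm I' hI' v' hv') h4 ω, Fintype.prod_sum_type]
    simp only [hH, Sum.elim_inl, Sum.elim_inr]
    rw [Finset.prod_mul_distrib, Finset.prod_mul_distrib]
    ring
  have e2 : EB p (fun ω => ∏ j, H j ω) = ∏ j, EB p (H j) := by
    refine blk (Sym2 (Fin n)) (Sym2 (Fin n) ⊕ Fin n) p (blkf n1) H ?_
    intro j ω ω' hω
    rcases j with e | x
    · simp only [hH, Sum.elim_inl]
      have a1 : hl I u v e ω = hl I u v e ω' := by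
        unfold hl
        by_cases he : e ∈ ab I u v
        · rw [if_pos he, if_pos he, hω e (blkf_ab n1 I u v hI hu hv e he)]
        · rw [if_neg he, if_neg he]
      have a2 : hl I' u' v' e ω = hl I' u' v' e ω' := by
        unfold hl
        by_cases he : e ∈ ab I' u' v'
        · rw [if_pos he, if_pos he, hω e (blkf_ab n1 I' u' v' hI' hu' hv' e he)]
        · rw [if_neg he, if_neg he]
      rw [a1, a2]
    · simp only [hH, Sum.elim_inr]
      have a1 : hr I u v x ω = hr I u v x ω' := by
        unfold hr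
        by_cases hx : x ∈ I
        · rw [if_pos hx, if_pos hx]
          unfold eqv
          rw [hω s(x, u) (blkf_row n1 x u (hI x hx) hu), hω s(x, v) (blkf_row n1 x v (hI x hx) hv)]
        · rw [if_neg hx, if_neg hx]
      have a2 : hr I' u' v' x ω = hr I' u' v' x ω' := by
        unfold hr
        by_cases hx : x ∈ I'
        · rw [if_pos hx, if_pos hx]
          unfold eqv
          rw [hω s(x, u') (blkf_row n1 x u' (hI' x hx) hu'),
            hω s(x, v') (blkf_row n1 x v' (hI' x hx) hv')]
        · rw [if_neg hx, if_neg hx]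
      rw [a1, a2]
  rw [e1, e2, Fintype.prod_sum_type]
  have e3 : ∀ e : Sym2 (Fin n), EB p (H (Sum.inl e))
      = if e ∈ ab I u v ∪ ab I' u' v' then (1 - p) else 1 := by
    intro e
    have : H (Sum.inl e) = fun ω => if e ∈ ab I u v ∪ ab I' u' v' then
        (if ω e = false then (1:ℝ) else 0) else 1 := by
      funext ω
      simp only [hH, Sum.elim_inl, hl, Finset.mem_union]
      by_cases b1 : e ∈ ab I u v <;> by_cases b2 : e ∈ ab I' u' v' <;>
        by_cases b3 : ω e = false <;> simp [b1, b2, b3]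
    rw [this]
    by_cases he : e ∈ ab I u v ∪ ab I' u' v'
    · simp only [he, if_true]
      exact EB_zero_bit p e
    · simp only [he, if_false]
      exact EB_const p 1
  have e4 : ∀ x : Fin n, EB p (H (Sum.inr x))
      = (if x ∈ I ∩ I' then cc p u v u' v' else 1) *
        ((if x ∈ I \ I' then (p ^ 2 + (1 - p) ^ 2) else 1) *
         (if x ∈ I' \ I then (p ^ 2 + (1 - p) ^ 2) else 1)) := by
    intro x
    have key : ∀ a b : Fin n, a ≠ b → s(x, a) ≠ s(x, b) := by
      intro a b hab h
      exact hab (Sym2.congr_right.1 h)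
    have : H (Sum.inr x) = fun ω => hr I u v x ω * hr I' u' v' x ω := by
      funext ω
      simp only [hH, Sum.elim_inr]
    rw [this]
    unfold hr
    by_cases b1 : x ∈ I <;> by_cases b2 : x ∈ I'
    · simp only [b1, b2, if_true, Finset.mem_inter, Finset.mem_sdiff, and_self, not_true_eq_false,
        and_false, if_false, mul_one]
      exact EB_cc p x u v u' v' h1 h2 h3 h4
    · simp only [b1, b2, if_true, if_false, Finset.mem_inter, Finset.mem_sdiff, and_false,
        not_false_eq_true, and_self, mul_one, one_mul, false_and]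
      exact EB_eqv p (key u v h1)
    · simp only [b1, b2, if_true, if_false, Finset.mem_inter, Finset.mem_sdiff, and_false,
        not_false_eq_true, and_self, mul_one, one_mul, false_and]
      exact EB_eqv p (key u' v' h4)
    · simp only [b1, b2, if_false, Finset.mem_inter, Finset.mem_sdiff, and_false,
        false_and, mul_one]
      exact EB_const p 1
  rw [Finset.prod_congr rfl (fun e _ => e3 e), Finset.prod_congr rfl (fun x _ => e4 x),
    Finset.prod_mul_distrib, Finset.prod_mul_distrib, Finset.prod_ite_mem, Finset.prod_ite_mem,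
    Finset.prod_ite_mem, Finset.prod_ite_mem, Finset.univ_inter, Finset.univ_inter,
    Finset.univ_inter, Finset.univ_inter, Finset.prod_const, Finset.prod_const, Finset.prod_const,
    Finset.prod_const, pow_add]
  ring

end Pool.Agent.V7H19.BC
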