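import Pool.Agent.V7H19.BC.Joint

/-! # Second moment for the number of twin structures -/

set_option autoImplicit false
open scoped Classical
open Finset Filter Topology

namespace Pool.Agent.V7H19.BC

open Pool.Agent.W839.Ch

variable {n : ℕ}

lemma EB_mono {ι : Type} [Fintype ι] (p : ℝ) (h0 : 0 ≤ p) (h1 : p ≤ 1) (F G : (ι → Bool) → ℝ)
    (h : ∀ ω, F ω ≤ G ω) : EB p F ≤ EB p G := by
  unfold EB
  refine Finset.sum_le_sum (fun ω _ => ?_)
  refine mul_le_mul_of_nonneg_left (h ω) ?_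
  refine Finset.prod_nonneg (fun i _ => ?_)
  unfold bw
  split_ifs <;> linarith

lemma Pr_eq (p : ℝ) (P : SimpleGraph (Fin n) → Prop) :
    Pr n p P = EB p (fun ω : Sym2 (Fin n) → Bool => if P (gr ω) then (1:ℝ) else 0) := by
  rw [bit n p (fun G => if P G then (1:ℝ) else 0)]
  unfold Pr
  refine Finset.sum_congr rfl (fun G _ => ?_)
  split_ifs <;> simp

/-- elementary second moment inequality -/
lemma second {ι : Type*} (p : ℝ) (h0 : 0 ≤ p) (h1 : p ≤ 1) (S : Finset ι)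
    (A : ι → SimpleGraph (Fin n) → Prop) (μ : ℝ) (hμ : 0 < μ)
    (hE : ∑ s ∈ S, EB p (fun ω : Sym2 (Fin n) → Bool => if A s (gr ω) then (1:ℝ) else 0) = μ)
    (hV : ∑ s ∈ S, ∑ s' ∈ S, EB p (fun ω : Sym2 (Fin n) → Bool =>
      (if A s (gr ω) then (1:ℝ) else 0) * (if A s' (gr ω) then (1:ℝ) else 0)) ≤ 2 * μ ^ 2) :
    1 / 2 ≤ Pr n p (fun G => ∃ s ∈ S, A s G) := by
  rw [Pr_eq]
  obtain ⟨X, hX⟩ : ∃ X : (Sym2 (Fin n) → Bool) → ℝ,
    X = fun ω => ∑ s ∈ S, (if A s (gr ω) then (1:ℝ) else 0) := ⟨_, rfl⟩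
  have hEX : EB p X = μ := by
    rw [hX, EB_sum, hE]
  have hEX2 : EB p (fun ω => X ω * X ω) ≤ 2 * μ ^ 2 := by
    refine le_trans (le_of_eq ?_) hV
    rw [hX]
    have : (fun ω : Sym2 (Fin n) → Bool => (∑ s ∈ S, (if A s (gr ω) then (1:ℝ) else 0))
        * (∑ s ∈ S, (if A s (gr ω) then (1:ℝ) else 0)))
        = fun ω => ∑ s ∈ S, ∑ s' ∈ S,
          (if A s (gr ω) then (1:ℝ) else 0) * (if A s' (gr ω) then (1:ℝ) else 0) := by
      funext ω
      rw [Finset.sum_mul_sum]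
    rw [this, EB_sum]
    refine Finset.sum_congr rfl (fun s _ => ?_)
    rw [EB_sum]
  have key : ∀ ω, (1 / μ) * X ω + (-(1 / (4 * μ ^ 2))) * (X ω * X ω)
      ≤ (if (∃ s ∈ S, A s (gr ω)) then (1:ℝ) else 0) := by
    intro ω
    by_cases hω : ∃ s ∈ S, A s (gr ω)
    · rw [if_pos hω]
      have : 0 ≤ (X ω / (2 * μ) - 1) ^ 2 := sq_nonneg _
      have e : (X ω / (2 * μ) - 1) ^ 2 = 1 / (4 * μ ^ 2) * (X ω * X ω) - 1 / μ * X ω + 1 := by
        field_simp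
        ring
      rw [e] at this
      linarith
    · rw [if_neg hω]
      have : X ω = 0 := by
        rw [hX]
        apply Finset.sum_eq_zero
        intro s hs
        rw [if_neg]
        intro h
        exact hω ⟨s, hs, h⟩
      rw [this]
      simp
  have h3 := EB_mono p h0 h1 _ _ key
  rw [EB_add, EB_mul_left, EB_mul_left, hEX] at h3
  refine le_trans ?_ (le_trans h3 (le_of_eq (by congr!)))
  have h4 : 1 / (4 * μ ^ 2) * EB p (fun ω => X ω * X ω) ≤ 1 / (4 * μ ^ 2) * (2 * μ ^ 2) :=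
    mul_le_mul_of_nonneg_left hEX2 (by positivity)
  have h5 : 1 / (4 * μ ^ 2) * (2 * μ ^ 2) = 1 / 2 := by
    field_simp
    norm_num
  have h6 : 1 / μ * μ = 1 := by field_simp
  rw [h5] at h4
  rw [h6]
  linarith

/-- the weight function of the second moment -/
noncomputable def Tf (p : ℝ) (m i : ℕ) : ℝ :=
  ((1 - p) ^ (i.choose 2))⁻¹ *
    (1 + 2 / m * ((p ^ 3 + (1 - p) ^ 3) / (p ^ 2 + (1 - p) ^ 2) ^ 2) ^ i
      + 1 / ((1 - p) * m ^ 2) * ((p ^ 2 + (1 - p) ^ 2) ^ i)⁻¹)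

lemma card_ab (I I' : Finset (Fin n)) (u v u' v' : Fin n) (hu : u ∉ I) (hu1 : u ∉ I')
    (hu' : u' ∉ I) (hu1' : u' ∉ I') (h4 : u ≠ v') :
    (ab I u v ∪ ab I' u' v').card = (prs I ∪ prs I').card +
      (if u = u' ∧ v = v' then 1 else 2) := by
  have e : ab I u v ∪ ab I' u' v' = insert s(u, v) (insert s(u', v') (prs I ∪ prs I')) := by
    unfold ab
    ext e
    simp only [Finset.mem_union, Finset.mem_insert]
    tauto
  rw [e]
  have a1 : s(u', v') ∉ prs I ∪ prs I' := by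
    rw [Finset.mem_union, mem_prs, mem_prs]
    tauto
  by_cases h : u = u' ∧ v = v'
  · rw [if_pos h]
    obtain ⟨rfl, rfl⟩ := h
    rw [Finset.insert_idem, Finset.card_insert_of_notMem a1]
  · rw [if_neg h, Finset.card_insert_of_notMem, Finset.card_insert_of_notMem a1]
    rw [Finset.mem_insert, Finset.mem_union, mem_prs, mem_prs]
    intro h'
    rcases h' with h' | h' | h'
    · rw [Sym2.eq_iff] at h'
      rcases h' with h' | h'
      · exact h h'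
      · exact h4 h'.1
    · exact hu h'.1
    · exact hu1 h'.1

lemma card_prs_union (I I' : Finset (Fin n)) (k : ℕ) (h : I.card = k) (h' : I'.card = k) :
    (prs I ∪ prs I').card + (I ∩ I').card.choose 2 = 2 * k.choose 2 := by
  have := Finset.card_union_add_card_inter (prs I) (prs I')
  rw [prs_inter, card_prs, card_prs, card_prs, h, h'] at this
  omega

/-- sum over the twin pairs -/
lemma inner (p : ℝ) (h0 : 0 < p) (h1 : p < 1) (n1 m k : ℕ) (hm : 0 < m)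
    (V2 V3 : Finset (Fin n))
    (hV2 : ∀ x ∈ V2, n1 ≤ x.val) (hV3 : ∀ x ∈ V3, n1 ≤ x.val)
    (h23 : ∀ x ∈ V2, ∀ y ∈ V3, x ≠ y) (c2 : V2.card = m) (c3 : V3.card = m)
    (I I' : Finset (Fin n)) (hI : ∀ x ∈ I, x.val < n1) (hI' : ∀ x ∈ I', x.val < n1)
    (cI : I.card = k) (cI' : I'.card = k) :
    ∑ u ∈ V2, ∑ v ∈ V3, ∑ u' ∈ V2, ∑ v' ∈ V3, EB p (fun ω : Sym2 (Fin n) → Bool =>
      (if St I u v (gr ω) then (1:ℝ) else 0) * (if St I' u' v' (gr ω) then (1:ℝ) else 0))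
    ≤ ((m:ℝ) ^ 2 * (1 - p) ^ (k.choose 2 + 1) * (p ^ 2 + (1 - p) ^ 2) ^ k) ^ 2
      * Tf p m (I ∩ I').card := by
  obtain ⟨i, hi⟩ : ∃ i, i = (I ∩ I').card := ⟨_, rfl⟩
  obtain ⟨q, hq⟩ : ∃ q, q = 1 - p := ⟨_, rfl⟩
  obtain ⟨ρ, hρ⟩ : ∃ ρ, ρ = p ^ 2 + (1 - p) ^ 2 := ⟨_, rfl⟩
  obtain ⟨p3, hp3⟩ : ∃ p3, p3 = p ^ 3 + (1 - p) ^ 3 := ⟨_, rfl⟩
  obtain ⟨D, hD⟩ : ∃ D, D = (prs I ∪ prs I').card := ⟨_, rfl⟩
  have hq0 : 0 < q := by rw [hq]; linarith
  have hρ0 : 0 < ρ := by rw [hρ, ← hq]; positivity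
  have hp30 : 0 < p3 := by rw [hp3, ← hq]; positivity
  have hDi : D + i.choose 2 = 2 * k.choose 2 := by
    rw [hD, hi]; exact card_prs_union I I' k cI cI'
  have nm : ∀ (J : Finset (Fin n)), (∀ x ∈ J, x.val < n1) → ∀ w : Fin n, n1 ≤ w.val → w ∉ J := by
    intro J hJ w hw h
    have := hJ w h
    omega
  have hik : (I \ I').card + (I' \ I).card = 2 * (k - i) := by
    have a := Finset.card_sdiff_add_card_inter I I'
    have b := Finset.card_sdiff_add_card_inter I' I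
    rw [Finset.inter_comm I' I] at b
    omega
  have hile : i ≤ k := by
    rw [hi, ← cI]; exact Finset.card_le_card Finset.inter_subset_left
  have bound : ∀ u ∈ V2, ∀ v ∈ V3, ∀ u' ∈ V2, ∀ v' ∈ V3, EB p (fun ω : Sym2 (Fin n) → Bool =>
      (if St I u v (gr ω) then (1:ℝ) else 0) * (if St I' u' v' (gr ω) then (1:ℝ) else 0))
      ≤ q ^ D * ρ ^ (2 * (k - i)) * (q ^ 2 * ρ ^ (2 * i)
        + (if u = u' then q ^ 2 * p3 ^ i else 0)
        + (if v = v' then q ^ 2 * p3 ^ i else 0)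
        + (if u = u' then (if v = v' then q * ρ ^ i else 0) else 0)) := by
    intro u hu v hv u' hu' v' hv'
    rw [joint p n1 I I' u v u' v' hI hI' (hV2 u hu) (hV3 v hv) (hV2 u' hu') (hV3 v' hv')
      (h23 u hu v hv) (h23 u hu v' hv') (h23 u' hu' v hv) (h23 u' hu' v' hv'), hik,
      card_ab I I' u v u' v' (nm I hI u (hV2 u hu)) (nm I' hI' u (hV2 u hu))
        (nm I hI u' (hV2 u' hu')) (nm I' hI' u' (hV2 u' hu')) (h23 u hu v' hv'), ← hD, ← hi]
    unfold cc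
    rw [← hρ, ← hp3, ← hq, pow_add]
    have P1 : 0 < q ^ 2 * ρ ^ (2 * i) := by positivity
    have P2 : 0 < q ^ 2 * p3 ^ i := by positivity
    have P3 : 0 < q * ρ ^ i := by positivity
    have e : ∀ a b : ℝ, q ^ D * a * b * ρ ^ (2 * (k - i)) = q ^ D * ρ ^ (2 * (k - i)) * (a * b) := by
      intro a b; ring
    rw [e]
    refine mul_le_mul_of_nonneg_left ?_ (by positivity)
    by_cases b1 : u = u' <;> by_cases b2 : v = v'
    · simp only [b1, b2, and_self, if_true, pow_one]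
      linarith
    · simp only [b1, b2, and_false, if_true, if_false]
      linarith
    · simp only [b1, b2, false_and, if_true, if_false]
      linarith
    · simp only [b1, b2, and_self, if_false, ← pow_mul]
      linarith
  have s1 : ∑ u ∈ V2, ∑ v ∈ V3, ∑ u' ∈ V2, ∑ v' ∈ V3, EB p (fun ω : Sym2 (Fin n) → Bool =>
      (if St I u v (gr ω) then (1:ℝ) else 0) * (if St I' u' v' (gr ω) then (1:ℝ) else 0))
      ≤ ∑ u ∈ V2, ∑ v ∈ V3, ∑ u' ∈ V2, ∑ v' ∈ V3,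
        (q ^ D * ρ ^ (2 * (k - i)) * (q ^ 2 * ρ ^ (2 * i)
        + (if u = u' then q ^ 2 * p3 ^ i else 0)
        + (if v = v' then q ^ 2 * p3 ^ i else 0)
        + (if u = u' then (if v = v' then q * ρ ^ i else 0) else 0))) := by
    refine Finset.sum_le_sum (fun u hu => Finset.sum_le_sum (fun v hv =>
      Finset.sum_le_sum (fun u' hu' => Finset.sum_le_sum (fun v' hv' => ?_))))
    exact bound u hu v hv u' hu' v' hv'
  refine le_trans s1 (le_of_eq ?_)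
  have s2 : ∀ u ∈ V2, ∀ v ∈ V3, ∑ u' ∈ V2, ∑ v' ∈ V3,
        (q ^ D * ρ ^ (2 * (k - i)) * (q ^ 2 * ρ ^ (2 * i)
        + (if u = u' then q ^ 2 * p3 ^ i else 0)
        + (if v = v' then q ^ 2 * p3 ^ i else 0)
        + (if u = u' then (if v = v' then q * ρ ^ i else 0) else 0)))
      = q ^ D * ρ ^ (2 * (k - i)) * (m ^ 2 * (q ^ 2 * ρ ^ (2 * i)) + m * (q ^ 2 * p3 ^ i)
        + m * (q ^ 2 * p3 ^ i) + q * ρ ^ i) := by
    intro u hu v hv
    have s3 : ∑ x ∈ V2, ∑ y ∈ V3, (if u = x then (if v = y then q * ρ ^ i else 0) else 0)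
        = q * ρ ^ i := by
      have : ∀ x ∈ V2, ∑ y ∈ V3, (if u = x then (if v = y then q * ρ ^ i else 0) else 0)
          = if u = x then q * ρ ^ i else 0 := by
        intro x _
        by_cases hx : u = x
        · simp [hx, hv]
        · simp [hx]
      rw [Finset.sum_congr rfl this]
      simp [hu]
    simp only [← Finset.mul_sum, Finset.sum_add_distrib, Finset.sum_const, Finset.sum_ite_eq,
      hu, hv, if_true, c2, c3, nsmul_eq_mul, s3]
    ring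
  rw [Finset.sum_congr rfl (fun u hu => Finset.sum_congr rfl (fun v hv => s2 u hu v hv))]
  rw [Finset.sum_const, Finset.sum_const, c2, c3, nsmul_eq_mul, nsmul_eq_mul, ← hi]
  unfold Tf
  rw [← hρ, ← hp3, ← hq]
  have hm' : (m:ℝ) ≠ 0 := by positivity
  have e1 : q ^ D = (q ^ (k.choose 2)) ^ 2 * (q ^ (i.choose 2))⁻¹ := by
    rw [eq_mul_inv_iff_mul_eq₀ (by positivity), ← pow_add, hDi, ← pow_mul, mul_comm]
  have e2 : ρ ^ (2 * (k - i)) = (ρ ^ k) ^ 2 * ((ρ ^ i) ^ 2)⁻¹ := by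
    rw [eq_mul_inv_iff_mul_eq₀ (by positivity), ← pow_mul, ← pow_mul, ← pow_add]
    congr 1
    omega
  rw [e1, e2, pow_add, pow_one, div_pow]
  have e3 : ρ ^ (2 * i) = (ρ ^ i) ^ 2 := by rw [← pow_mul, mul_comm]
  have e4 : (ρ ^ 2) ^ i = (ρ ^ i) ^ 2 := by rw [← pow_mul, ← pow_mul, mul_comm]
  rw [e3, e4]
  have n1' : q ^ (i.choose 2) ≠ 0 := by positivity
  have n2' : ρ ^ i ≠ 0 := by positivity
  have n3' : q ≠ 0 := hq0.ne'
  field_simp
  ring

/-- the second moment method for twin structures -/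
lemma exists_prob (p : ℝ) (h0 : 0 < p) (h1 : p < 1) (n1 m k : ℕ) (hm : 0 < m) (hk : k ≤ n1)
    (V1 V2 V3 : Finset (Fin n)) (hV1 : ∀ x ∈ V1, x.val < n1)
    (hV2 : ∀ x ∈ V2, n1 ≤ x.val) (hV3 : ∀ x ∈ V3, n1 ≤ x.val)
    (h23 : ∀ x ∈ V2, ∀ y ∈ V3, x ≠ y) (c1 : V1.card = n1) (c2 : V2.card = m) (c3 : V3.card = m)
    (hT : ∀ I ∈ V1.powersetCard k, ∑ I' ∈ V1.powersetCard k, Tf p m (I ∩ I').card
      ≤ 2 * (n1.choose k : ℝ)) :
    1 / 2 ≤ Pr n p (fun G => ∃ I ∈ V1.powersetCard k, ∃ u ∈ V2, ∃ v ∈ V3, St I u v G) := by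
  obtain ⟨q, hq⟩ : ∃ q, q = 1 - p := ⟨_, rfl⟩
  obtain ⟨ρ, hρ⟩ : ∃ ρ, ρ = p ^ 2 + (1 - p) ^ 2 := ⟨_, rfl⟩
  have hq0 : 0 < q := by rw [hq]; linarith
  have hρ0 : 0 < ρ := by rw [hρ, ← hq]; positivity
  have hC : 0 < (n1.choose k : ℝ) := by
    have := Nat.choose_pos hk
    positivity
  have nm : ∀ (J : Finset (Fin n)), (∀ x ∈ J, x.val < n1) → ∀ w : Fin n, n1 ≤ w.val → w ∉ J := by
    intro J hJ w hw h
    have := hJ w h
    omega
  have sub : ∀ I ∈ V1.powersetCard k, (∀ x ∈ I, x.val < n1) ∧ I.card = k := by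
    intro I hI
    rw [Finset.mem_powersetCard] at hI
    exact ⟨fun x hx => hV1 x (hI.1 hx), hI.2⟩
  obtain ⟨κ, hκ⟩ : ∃ κ : ℝ, κ = (m:ℝ) ^ 2 * (1 - p) ^ (k.choose 2 + 1)
    * (p ^ 2 + (1 - p) ^ 2) ^ k := ⟨_, rfl⟩
  have hκ0 : 0 < κ := by
    rw [hκ, ← hρ, ← hq]; positivity
  have hμ : 0 < (n1.choose k : ℝ) * κ := by positivity
  have main := second (n := n) (ι := Finset (Fin n) × Fin n × Fin n) p h0.le h1.le
    (V1.powersetCard k ×ˢ (V2 ×ˢ V3)) (fun s G => St s.1 s.2.1 s.2.2 G) ((n1.choose k : ℝ) * κ) hμ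
    ?_ ?_
  · refine le_trans main ?_
    apply Pr_mono h0.le h1.le
    rintro G ⟨⟨I, u, v⟩, hs, h⟩
    rw [Finset.mem_product, Finset.mem_product] at hs
    exact ⟨I, hs.1, u, hs.2.1, v, hs.2.2, h⟩
  · rw [Finset.sum_product]
    have e1 : ∀ I ∈ V1.powersetCard k, ∑ s ∈ V2 ×ˢ V3, EB p (fun ω : Sym2 (Fin n) → Bool =>
        if St I s.1 s.2 (gr ω) then (1:ℝ) else 0) = κ := by
      intro I hI
      obtain ⟨hI1, hI2⟩ := sub I hI
      rw [Finset.sum_product]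
      have e2 : ∀ u ∈ V2, ∀ v ∈ V3, EB p (fun ω : Sym2 (Fin n) → Bool =>
          if St I u v (gr ω) then (1:ℝ) else 0) = q ^ (k.choose 2 + 1) * ρ ^ k := by
        intro u hu v hv
        have j := joint p n1 I I u v u v hI1 hI1 (hV2 u hu) (hV3 v hv) (hV2 u hu) (hV3 v hv)
          (h23 u hu v hv) (h23 u hu v hv) (h23 u hu v hv) (h23 u hu v hv)
        rw [card_ab I I u v u v (nm I hI1 u (hV2 u hu)) (nm I hI1 u (hV2 u hu))
          (nm I hI1 u (hV2 u hu)) (nm I hI1 u (hV2 u hu)) (h23 u hu v hv)] at j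
        simp only [Finset.union_self, card_prs, and_self, if_true, Finset.inter_self,
          Finset.sdiff_self, Finset.card_empty, add_zero, pow_zero, mul_one, hI2, cc] at j
        rw [← hρ, ← hq] at j
        rw [← j]
        congr 1
        funext ω
        split_ifs <;> simp
      rw [Finset.sum_congr rfl (fun u hu => Finset.sum_congr rfl (fun v hv => e2 u hu v hv)),
        Finset.sum_const, Finset.sum_const, c2, c3, nsmul_eq_mul, nsmul_eq_mul, hκ, ← hρ, ← hq]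
      ring
    rw [Finset.sum_congr rfl e1, Finset.sum_const, Finset.card_powersetCard, c1, nsmul_eq_mul]
  · simp only [Finset.sum_product]
    have e1 : ∀ I ∈ V1.powersetCard k,
        ∑ u ∈ V2, ∑ v ∈ V3, ∑ I' ∈ V1.powersetCard k, ∑ u' ∈ V2, ∑ v' ∈ V3,
          EB p (fun ω : Sym2 (Fin n) → Bool => (if St I u v (gr ω) then (1:ℝ) else 0)
            * (if St I' u' v' (gr ω) then (1:ℝ) else 0))
        = ∑ I' ∈ V1.powersetCard k, ∑ u ∈ V2, ∑ v ∈ V3, ∑ u' ∈ V2, ∑ v' ∈ V3,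
          EB p (fun ω : Sym2 (Fin n) → Bool => (if St I u v (gr ω) then (1:ℝ) else 0)
            * (if St I' u' v' (gr ω) then (1:ℝ) else 0)) := by
      intro I _
      rw [Finset.sum_congr rfl (fun u _ => Finset.sum_comm)]
      rw [Finset.sum_comm]
    rw [Finset.sum_congr rfl e1]
    have e2 : ∀ I ∈ V1.powersetCard k, ∑ I' ∈ V1.powersetCard k, ∑ u ∈ V2, ∑ v ∈ V3,
          ∑ u' ∈ V2, ∑ v' ∈ V3,
          EB p (fun ω : Sym2 (Fin n) → Bool => (if St I u v (gr ω) then (1:ℝ) else 0)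
            * (if St I' u' v' (gr ω) then (1:ℝ) else 0)) ≤ κ ^ 2 * (2 * (n1.choose k : ℝ)) := by
      intro I hI
      obtain ⟨hI1, hI2⟩ := sub I hI
      refine le_trans ?_ (mul_le_mul_of_nonneg_left (hT I hI) (by positivity))
      rw [Finset.mul_sum]
      refine Finset.sum_le_sum (fun I' hI' => ?_)
      obtain ⟨hI1', hI2'⟩ := sub I' hI'
      rw [hκ]
      exact inner p h0 h1 n1 m k hm V2 V3 hV2 hV3 h23 c2 c3 I I' hI1 hI1' hI2 hI2'
    refine le_trans (Finset.sum_le_sum e2) (le_of_eq ?_)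
    rw [Finset.sum_const, Finset.card_powersetCard, c1, nsmul_eq_mul]
    ring

end Pool.Agent.V7H19.BC
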