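import Pool.Agent.V7H19.BC.Sum

/-! # Choice of the parameters -/

set_option autoImplicit false
open scoped Classical
open Finset Filter Topology

namespace Pool.Agent.V7H19.BC

lemma exists_n (k : ℕ) (hk : 1 ≤ k) : ∃ n : ℕ,
    4 * (n.choose (k + 1) : ℝ) ≤ (4/3:ℝ) ^ (k * (k + 1)) ∧
    (4/3:ℝ) ^ (k * (k + 1)) < 4 * ((n + 1).choose (k + 1) : ℝ) := by
  have hex : ∃ N : ℕ, (4/3:ℝ) ^ (k * (k + 1)) < 4 * ((N + 1).choose (k + 1) : ℝ) := by
    refine ⟨(k + 1) * 2 ^ k - 1, ?_⟩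
    have e : (k + 1) * 2 ^ k - 1 + 1 = (k + 1) * 2 ^ k := by
      have : 0 < (k + 1) * 2 ^ k := by positivity
      omega
    rw [e]
    have h1 := choose_ratio ((k + 1) * 2 ^ k) (k + 1) (k + 1) le_rfl
      (Nat.le_mul_of_pos_right _ (by positivity))
    simp only [Nat.sub_self, Nat.choose_zero_right, Nat.cast_one, mul_one] at h1
    have h2 : (0:ℝ) < (((k + 1 : ℕ)):ℝ) ^ (k + 1) := by positivity
    have h3 : (((k + 1) * 2 ^ k : ℕ) : ℝ) ^ (k + 1)
        = (((k + 1 : ℕ)):ℝ) ^ (k + 1) * ((2:ℝ) ^ k) ^ (k + 1) := by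
      rw [Nat.cast_mul, mul_pow]; push_cast; ring
    rw [h3, mul_comm (((((k + 1) * 2 ^ k).choose (k + 1) : ℕ)) : ℝ)] at h1
    have h4 := le_of_mul_le_mul_left h1 h2
    have h5 : (4/3:ℝ) ^ (k * (k + 1)) ≤ ((2:ℝ) ^ k) ^ (k + 1) := by
      rw [← pow_mul]; gcongr; norm_num
    have h6 : (0:ℝ) < ((2:ℝ) ^ k) ^ (k + 1) := by positivity
    linarith
  refine ⟨Nat.find hex, ?_, Nat.find_spec hex⟩
  by_cases h0 : Nat.find hex = 0
  · rw [h0, Nat.choose_eq_zero_of_lt (by omega)]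
    simp only [Nat.cast_zero, mul_zero]
    positivity
  · have := Nat.find_min hex (m := Nat.find hex - 1) (by omega)
    have e : Nat.find hex - 1 + 1 = Nat.find hex := by omega
    rw [e] at this
    exact not_lt.1 this

lemma choose_sub (n k t : ℕ) (hk : 1 ≤ k) (ht : t ≤ n) :
    n.choose k ≤ (n - t).choose k + t * (n - 1).choose (k - 1) := by
  induction t with
  | zero => simp
  | succ t ih =>
    have h1 := ih (by omega)
    have h2 : (n - t).choose k = (n - (t + 1)).choose (k - 1) + (n - (t + 1)).choose k := by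
      obtain ⟨a, ha⟩ : ∃ a, n - t = a + 1 := ⟨n - t - 1, by omega⟩
      obtain ⟨b, rfl⟩ : ∃ b, k = b + 1 := ⟨k - 1, by omega⟩
      have : n - (t + 1) = a := by omega
      rw [ha, this, Nat.choose_succ_succ]
      rfl
    have h3 : (n - (t + 1)).choose (k - 1) ≤ (n - 1).choose (k - 1) :=
      Nat.choose_le_choose _ (by omega)
    rw [h2] at h1
    have : (t + 1) * (n - 1).choose (k - 1) = t * (n - 1).choose (k - 1) + (n - 1).choose (k - 1) := by
      ring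
    omega

lemma fact_bound (k : ℕ) (hk : 5 ≤ k) : 4 * 2 ^ (k + 1) ≤ (k + 1).factorial := by
  induction k, hk using Nat.le_induction with
  | base => decide
  | succ k hk ih =>
    rw [Nat.factorial_succ, pow_succ]
    nlinarith

lemma param (l : ℕ) (A : ℝ) (hA : A = (4/3:ℝ) ^ l) (hl : 3 ≤ l) (HL : 16000 * (l:ℝ) ^ 3 ≤ A) :
    ∃ n n1 m : ℕ, n = n1 + 2 * m ∧ 1 ≤ m ∧ 2 * l ≤ n1 ∧ A ^ 2 ≤ 2 * n1 ∧
      (n1:ℝ) ≤ (2 * l + 1) * A ^ 2 ∧
      (4/3:ℝ) ^ (2 * l * (2 * l - 1)) * A ^ 2 ≤ 16 * (n1.choose (2 * l) : ℝ) ∧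
      A ^ 2 ≤ 16 * l * m ∧
      4 * (n.choose (2 * l + 1) : ℝ) ≤ (4/3:ℝ) ^ (2 * l * (2 * l + 1)) ∧ l ≤ n := by
  have hl' : (3:ℝ) ≤ l := by exact_mod_cast hl
  have hA0 : 0 < A := by rw [hA]; positivity
  have hl3 : (l:ℝ) ≤ (l:ℝ) ^ 3 := by
    have : (l:ℝ) ^ 3 = l * (l * l) := by ring
    rw [this]
    nlinarith
  have hAl : 16000 * (l:ℝ) ≤ A := by linarith
  have hA1 : 1 ≤ A := by linarith
  have hA2 : A ≤ A ^ 2 := by nlinarith
  obtain ⟨n, hn1, hn2⟩ := exists_n (2 * l) (by omega)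
  have ek : (4/3:ℝ) ^ (2 * l * (2 * l + 1)) = (A ^ 2) ^ (2 * l + 1) := by
    rw [hA, ← pow_mul, ← pow_mul]; congr 1; ring
  -- upper bound for n
  have hup : (n:ℝ) ≤ (2 * l + 1) * A ^ 2 := by
    by_cases hnk : 2 * l + 1 ≤ n
    · have h1 := choose_ratio n (2 * l + 1) (2 * l + 1) le_rfl hnk
      simp only [Nat.sub_self, Nat.choose_zero_right, Nat.cast_one, mul_one] at h1
      have h2 : (n:ℝ) ^ (2 * l + 1) ≤ ((2 * l + 1) * A ^ 2) ^ (2 * l + 1) := by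
        calc (n:ℝ) ^ (2 * l + 1) ≤ (n.choose (2 * l + 1) : ℝ) * (((2 * l + 1 : ℕ)):ℝ) ^ (2 * l + 1) := h1
          _ ≤ (A ^ 2) ^ (2 * l + 1) * (((2 * l + 1 : ℕ)):ℝ) ^ (2 * l + 1) := by
              gcongr
              rw [← ek]
              have : (0:ℝ) ≤ (n.choose (2 * l + 1) : ℝ) := by positivity
              linarith
          _ = _ := by rw [← mul_pow]; push_cast; ring
      exact le_of_pow_le_pow_left₀ (by omega) (by positivity) h2
    · have : (n:ℝ) ≤ 2 * l + 1 := by exact_mod_cast (by omega : n ≤ 2 * l + 1)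
      nlinarith
  -- lower bound for n
  have hlow : 2 * A ^ 2 ≤ (n:ℝ) + 1 := by
    have h1 : ((n + 1).choose (2 * l + 1) : ℝ) ≤ ((n + 1 : ℕ) : ℝ) ^ (2 * l + 1)
        / ((2 * l + 1).factorial : ℝ) := Nat.choose_le_pow_div _ _
    have h2 : (4:ℝ) * 2 ^ (2 * l + 1) ≤ ((2 * l + 1).factorial : ℝ) := by
      exact_mod_cast fact_bound (2 * l) (by omega)
    have h3 : (0:ℝ) < ((2 * l + 1).factorial : ℝ) := by positivity
    rw [le_div_iff₀ h3] at h1
    have h4 : (2 * A ^ 2) ^ (2 * l + 1) ≤ ((n:ℝ) + 1) ^ (2 * l + 1) := by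
      have h5 : (A ^ 2) ^ (2 * l + 1) * ((2 * l + 1).factorial : ℝ)
          ≤ 4 * (((n + 1).choose (2 * l + 1) : ℝ) * ((2 * l + 1).factorial : ℝ)) := by
        rw [← ek, ← mul_assoc]
        gcongr
      have h6 : (A ^ 2) ^ (2 * l + 1) * (4 * 2 ^ (2 * l + 1))
          ≤ (A ^ 2) ^ (2 * l + 1) * ((2 * l + 1).factorial : ℝ) := by gcongr
      have h7 : (2 * A ^ 2) ^ (2 * l + 1) = (A ^ 2) ^ (2 * l + 1) * 2 ^ (2 * l + 1) := by
        rw [mul_pow]; ring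
      push_cast at h1
      rw [h7]
      linarith
    exact le_of_pow_le_pow_left₀ (by omega) (by positivity) h4
  have hnA : A ^ 2 ≤ n := by linarith
  have hnl : 16000 * (l:ℝ) ≤ n := by linarith
  have hnl' : 16000 * l ≤ n := by exact_mod_cast hnl
  have hm8 : 8 * l * (n / (8 * l)) ≤ n := Nat.mul_div_le n (8 * l)
  have hm8' : n < 8 * l * (n / (8 * l) + 1) := Nat.lt_mul_div_succ n (by omega)
  obtain ⟨m, hm⟩ : ∃ m, m = n / (8 * l) := ⟨_, rfl⟩
  rw [← hm] at hm8 hm8'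
  have hm1 : 1 ≤ m := by
    rw [hm]
    exact (Nat.one_le_div_iff (by omega)).2 (by omega)
  have hm4 : 4 * m ≤ n := by
    have : 4 * m ≤ 8 * l * m := by nlinarith
    omega
  have hmn : n ≤ 16 * l * m := by
    have : 8 * l * (m + 1) ≤ 16 * l * m := by nlinarith
    omega
  have hmn' : (n:ℝ) ≤ 16 * l * m := by exact_mod_cast hmn
  have hm8r : 8 * (l:ℝ) * m ≤ n := by exact_mod_cast hm8
  refine ⟨n, n - 2 * m, m, by omega, hm1, by omega, ?_, ?_, ?_, by linarith, hn1, by omega⟩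
  · have : n ≤ 2 * (n - 2 * m) := by omega
    have : (n:ℝ) ≤ 2 * ((n - 2 * m : ℕ) : ℝ) := by exact_mod_cast this
    linarith
  · have : ((n - 2 * m : ℕ) : ℝ) ≤ n := by exact_mod_cast Nat.sub_le _ _
    linarith
  · -- binomial coefficients
    have c1 := choose_sub n (2 * l) (2 * m) (by omega) (by omega)
    have c2 : n * (n - 1).choose (2 * l - 1) = n.choose (2 * l) * (2 * l) := by
      have := Nat.add_one_mul_choose_eq (n - 1) (2 * l - 1)
      have e1 : n - 1 + 1 = n := by omega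
      have e2 : 2 * l - 1 + 1 = 2 * l := by omega
      rw [e1, e2] at this
      exact this
    have c1' : (n.choose (2 * l) : ℝ) ≤ ((n - 2 * m).choose (2 * l) : ℝ)
        + 2 * m * ((n - 1).choose (2 * l - 1) : ℝ) := by exact_mod_cast c1
    have c2' : (n:ℝ) * ((n - 1).choose (2 * l - 1) : ℝ) = (n.choose (2 * l) : ℝ) * (2 * l) := by
      exact_mod_cast c2
    have hn0 : (0:ℝ) < n := by linarith
    have c3 : 2 * (m:ℝ) * ((n - 1).choose (2 * l - 1) : ℝ) ≤ (n.choose (2 * l) : ℝ) / 2 := by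
      have : (n:ℝ) * (2 * (m:ℝ) * ((n - 1).choose (2 * l - 1) : ℝ))
          ≤ n * ((n.choose (2 * l) : ℝ) / 2) := by
        calc (n:ℝ) * (2 * (m:ℝ) * ((n - 1).choose (2 * l - 1) : ℝ))
            = 2 * m * ((n:ℝ) * ((n - 1).choose (2 * l - 1) : ℝ)) := by ring
          _ = (8 * l * m) * ((n.choose (2 * l) : ℝ) / 2) := by rw [c2']; ring
          _ ≤ n * ((n.choose (2 * l) : ℝ) / 2) := by gcongr
      exact le_of_mul_le_mul_left this hn0
    have c4 : (n.choose (2 * l) : ℝ) ≤ 2 * ((n - 2 * m).choose (2 * l) : ℝ) := by linarith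
    have c5 : ((n:ℝ) + 1) * (n.choose (2 * l) : ℝ)
        = ((n + 1).choose (2 * l + 1) : ℝ) * (2 * l + 1) := by
      have := Nat.add_one_mul_choose_eq n (2 * l)
      exact_mod_cast this
    have e3 : (4/3:ℝ) ^ (2 * l * (2 * l + 1)) = (4/3:ℝ) ^ (2 * l * (2 * l - 1)) * A ^ 4 := by
      rw [hA, ← pow_mul, ← pow_add]
      congr 1
      obtain ⟨t, rfl⟩ : ∃ t, l = t + 1 := ⟨l - 1, by omega⟩
      have : 2 * (t + 1) - 1 = 2 * t + 1 := by omega
      rw [this]; ring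
    rw [e3] at hn2
    have c6 : (n:ℝ) + 1 ≤ 2 * ((2 * l + 1) * A ^ 2) := by linarith
    -- combine
    have c7 : (4/3:ℝ) ^ (2 * l * (2 * l - 1)) * A ^ 4 * (2 * l + 1)
        ≤ 8 * ((2 * l + 1) * A ^ 2) * (n.choose (2 * l) : ℝ) := by
      calc (4/3:ℝ) ^ (2 * l * (2 * l - 1)) * A ^ 4 * (2 * l + 1)
          ≤ 4 * ((n + 1).choose (2 * l + 1) : ℝ) * (2 * l + 1) := by gcongr
        _ = 4 * (((n:ℝ) + 1) * (n.choose (2 * l) : ℝ)) := by rw [c5]; ring
        _ ≤ 4 * ((2 * ((2 * l + 1) * A ^ 2)) * (n.choose (2 * l) : ℝ)) := by gcongr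
        _ = _ := by ring
    have c8 : (4/3:ℝ) ^ (2 * l * (2 * l - 1)) * A ^ 2 ≤ 8 * (n.choose (2 * l) : ℝ) := by
      have h2 : (0:ℝ) < (2 * l + 1) * A ^ 2 := by positivity
      have h3 : ((2 * l + 1) * A ^ 2) * ((4/3:ℝ) ^ (2 * l * (2 * l - 1)) * A ^ 2)
          ≤ ((2 * l + 1) * A ^ 2) * (8 * (n.choose (2 * l) : ℝ)) := by
        calc ((2 * l + 1) * A ^ 2) * ((4/3:ℝ) ^ (2 * l * (2 * l - 1)) * A ^ 2)
            = (4/3:ℝ) ^ (2 * l * (2 * l - 1)) * A ^ 4 * (2 * l + 1) := by ring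
          _ ≤ _ := c7
          _ = _ := by ring
      exact le_of_mul_le_mul_left h3 h2
    linarith

end Pool.Agent.V7H19.BC
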