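import Pool.Agent.V7H19.BC.Count

/-! # The numerical bound for the second moment -/

set_option autoImplicit false
open scoped Classical
open Finset Filter Topology

namespace Pool.Agent.V7H19.BC

/-- terms with small overlap -/
lemma termB (l n1 m i : ℕ) (A : ℝ) (hA : A = (4/3:ℝ) ^ l) (hl : 1 ≤ l)
    (HL : 16000 * (l:ℝ) ^ 3 ≤ A) (H1 : A ^ 2 ≤ 2 * n1) (hm : 1 ≤ m) (hk : 2 * l ≤ n1)
    (hi1 : 1 ≤ i) (hi2 : i ≤ l) :
    ((2 * l).choose i * (n1 - 2 * l).choose (2 * l - i) : ℝ) * Tf (7/16) m i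
      ≤ (n1.choose (2 * l) : ℝ) * (7824 * (l:ℝ) ^ 2 / A) := by
  have hl' : (1:ℝ) ≤ l := by exact_mod_cast hl
  have hA0 : 0 < A := by rw [hA]; positivity
  have hn1 : 0 < n1 := by omega
  have hn1' : (0:ℝ) < n1 := by exact_mod_cast hn1
  have hm' : (1:ℝ) ≤ m := by exact_mod_cast hm
  have h1 := small_i n1 (2 * l) i (by omega) hk hn1
  have hT : Tf (7/16) m i ≤ (4/3:ℝ) ^ (i * (i - 1)) * (5 * 2 ^ i) := by
    rw [Tf_eq]
    refine mul_le_mul_of_nonneg_left ?_ (by positivity)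
    have a1 : (1:ℝ) ≤ 2 ^ i := one_le_pow₀ (by norm_num)
    have a2 : (4288/4225:ℝ) ^ i ≤ 2 ^ i := by gcongr; norm_num
    have a3 : (128/65:ℝ) ^ i ≤ 2 ^ i := by gcongr; norm_num
    have a4 : 2 / (m:ℝ) ≤ 2 := by
      rw [div_le_iff₀ (by positivity)]; linarith
    have a5 : 16 / (9 * (m:ℝ) ^ 2) ≤ 2 := by
      rw [div_le_iff₀ (by positivity)]; nlinarith
    have a6 : 2 / (m:ℝ) * (4288/4225) ^ i ≤ 2 * 2 ^ i := by gcongr
    have a7 : 16 / (9 * (m:ℝ) ^ 2) * (128/65) ^ i ≤ 2 * 2 ^ i := by gcongr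
    linarith
  have hT0 : 0 ≤ Tf (7/16) m i := by rw [Tf_eq]; positivity
  obtain ⟨i', rfl⟩ : ∃ i', i = i' + 1 := ⟨i - 1, by omega⟩
  have e1 : (i' + 1) * (i' + 1 - 1) = i' * (i' + 1) := by
    rw [Nat.add_sub_cancel]; ring
  have hbase : 2 * ((((2 * l : ℕ):ℝ)) ^ 2 / n1) * (4/3) ^ i' ≤ 16 * (l:ℝ) ^ 2 / A := by
    have b1 : (4/3:ℝ) ^ i' ≤ A := by
      rw [hA]; exact pow_le_pow_right₀ (by norm_num) (by omega)
    have b2 : (((2 * l : ℕ):ℝ)) ^ 2 / n1 ≤ 8 * (l:ℝ) ^ 2 / A ^ 2 := by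
      rw [div_le_div_iff₀ hn1' (by positivity)]
      push_cast
      nlinarith [sq_nonneg (l:ℝ)]
    calc 2 * ((((2 * l : ℕ):ℝ)) ^ 2 / n1) * (4/3) ^ i' ≤ 2 * (8 * (l:ℝ) ^ 2 / A ^ 2) * A := by
          gcongr
      _ = _ := by field_simp; norm_num
  have hb1 : 16 * (l:ℝ) ^ 2 / A ≤ 1 := by
    rw [div_le_one hA0]
    nlinarith [sq_nonneg (l:ℝ), mul_nonneg (sq_nonneg (l:ℝ)) (by linarith : (0:ℝ) ≤ l - 1)]
  have hb0 : 0 ≤ 2 * ((((2 * l : ℕ):ℝ)) ^ 2 / n1) * (4/3:ℝ) ^ i' := by positivity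
  calc ((2 * l).choose (i' + 1) * (n1 - 2 * l).choose (2 * l - (i' + 1)) : ℝ) * Tf (7/16) m (i' + 1)
      ≤ ((n1.choose (2 * l) : ℝ) * ((((2 * l : ℕ):ℝ)) ^ 2 / n1) ^ (i' + 1)) *
        ((4/3:ℝ) ^ ((i' + 1) * (i' + 1 - 1)) * (5 * 2 ^ (i' + 1))) := by gcongr
    _ = (n1.choose (2 * l) : ℝ) * (5 * (2 * ((((2 * l : ℕ):ℝ)) ^ 2 / n1) * (4/3) ^ i') ^ (i' + 1)) := by
        rw [e1, pow_mul, mul_pow, mul_pow]; ring
    _ ≤ (n1.choose (2 * l) : ℝ) * (5 * (2 * ((((2 * l : ℕ):ℝ)) ^ 2 / n1) * (4/3) ^ i')) := by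
        gcongr
        exact pow_le_of_le_one hb0 (hbase.trans hb1) (by omega)
    _ ≤ (n1.choose (2 * l) : ℝ) * (5 * (16 * (l:ℝ) ^ 2 / A)) := by gcongr
    _ ≤ (n1.choose (2 * l) : ℝ) * (7824 * (l:ℝ) ^ 2 / A) := by
        gcongr
        rw [mul_div_assoc', div_le_div_iff_of_pos_right hA0]
        nlinarith [sq_nonneg (l:ℝ)]

/-- terms with large overlap -/
lemma termC (l n1 m j : ℕ) (A : ℝ) (hA : A = (4/3:ℝ) ^ l) (hl : 1 ≤ l)
    (HL : 16000 * (l:ℝ) ^ 3 ≤ A) (H2 : (n1:ℝ) ≤ (2 * l + 1) * A ^ 2) (hm : 1 ≤ m)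
    (H3 : (4/3:ℝ) ^ (2 * l * (2 * l - 1)) * A ^ 2 ≤ 16 * (n1.choose (2 * l) : ℝ))
    (H4 : A ^ 2 ≤ 16 * l * m) (hj : j < l) :
    ((2 * l).choose (2 * l - j) * (n1 - 2 * l).choose (2 * l - (2 * l - j)) : ℝ)
        * Tf (7/16) m (2 * l - j)
      ≤ (n1.choose (2 * l) : ℝ) * (7824 * (l:ℝ) ^ 2 / A) := by
  have hl' : (1:ℝ) ≤ l := by exact_mod_cast hl
  have hA0 : 0 < A := by rw [hA]; positivity
  have hm' : (1:ℝ) ≤ m := by exact_mod_cast hm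
  have hl3 : (l:ℝ) ^ 2 ≤ (l:ℝ) ^ 3 := by
    nlinarith [sq_nonneg (l:ℝ), mul_nonneg (sq_nonneg (l:ℝ)) (by linarith : (0:ℝ) ≤ l - 1)]
  have hA1 : 1 ≤ A := by nlinarith [sq_nonneg (l:ℝ)]
  have h1 := large_i n1 (2 * l) j (by omega)
  -- overlap factor
  have h2 : (((2 * l : ℕ):ℝ) * n1) ≤ (4/3:ℝ) ^ (4 * l - j - 1) := by
    have b1 : (((2 * l : ℕ):ℝ) * n1) ≤ 6 * (l:ℝ) ^ 2 * A ^ 2 := by
      push_cast
      calc 2 * (l:ℝ) * n1 ≤ 2 * (l:ℝ) * ((2 * l + 1) * A ^ 2) := by gcongr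
        _ ≤ 2 * (l:ℝ) * ((3 * l) * A ^ 2) := by gcongr; linarith
        _ = _ := by ring
    have b2 : 6 * (l:ℝ) ^ 2 * A ^ 2 ≤ A ^ 3 := by
      have : 6 * (l:ℝ) ^ 2 ≤ A := by nlinarith
      calc 6 * (l:ℝ) ^ 2 * A ^ 2 ≤ A * A ^ 2 := by gcongr
        _ = _ := by ring
    have b3 : A ^ 3 ≤ (4/3:ℝ) ^ (4 * l - j - 1) := by
      rw [hA, ← pow_mul]
      exact pow_le_pow_right₀ (by norm_num) (by omega)
    linarith
  have h3 : (((2 * l : ℕ):ℝ) * n1) ^ j * (4/3:ℝ) ^ ((2 * l - j) * (2 * l - j - 1))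
      ≤ (4/3:ℝ) ^ (2 * l * (2 * l - 1)) := by
    calc (((2 * l : ℕ):ℝ) * n1) ^ j * (4/3:ℝ) ^ ((2 * l - j) * (2 * l - j - 1))
        ≤ ((4/3:ℝ) ^ (4 * l - j - 1)) ^ j * (4/3:ℝ) ^ ((2 * l - j) * (2 * l - j - 1)) := by gcongr
      _ = (4/3:ℝ) ^ (2 * l * (2 * l - 1)) := by
        rw [← pow_mul, ← pow_add]
        congr 1
        obtain ⟨t, rfl⟩ : ∃ t, l = j + 1 + t := ⟨l - (j + 1), by omega⟩
        have e1 : 4 * (j + 1 + t) - j - 1 = 3 * j + 3 + 4 * t := by omega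
        have e2 : 2 * (j + 1 + t) - j = j + 2 + 2 * t := by omega
        have e3 : j + 2 + 2 * t - 1 = j + 1 + 2 * t := by omega
        have e4 : 2 * (j + 1 + t) - 1 = 2 * j + 1 + 2 * t := by omega
        rw [e1, e2, e3, e4]
        ring
  have hW : 1 + 2 / (m:ℝ) * (4288/4225) ^ (2 * l - j) + 16 / (9 * (m:ℝ) ^ 2) * (128/65) ^ (2 * l - j)
      ≤ 1 + 32 * l / A + 456 * (l:ℝ) ^ 2 * A := by
    have c1 : 2 / (m:ℝ) ≤ 32 * l / A ^ 2 := by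
      rw [div_le_div_iff₀ (by positivity) (by positivity)]
      nlinarith
    have c2 : 16 / (9 * (m:ℝ) ^ 2) ≤ 456 * (l:ℝ) ^ 2 / A ^ 4 := by
      rw [div_le_div_iff₀ (by positivity) (by positivity)]
      have : A ^ 4 ≤ (16 * l * m) ^ 2 := by
        calc A ^ 4 = (A ^ 2) ^ 2 := by ring
          _ ≤ _ := by gcongr
      nlinarith [mul_nonneg (sq_nonneg (l:ℝ)) (sq_nonneg (m:ℝ))]
    have c3 : (4288/4225:ℝ) ^ (2 * l - j) ≤ A := by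
      calc (4288/4225:ℝ) ^ (2 * l - j) ≤ (4288/4225:ℝ) ^ (2 * l) :=
            pow_le_pow_right₀ (by norm_num) (by omega)
        _ = ((4288/4225:ℝ) ^ 2) ^ l := by rw [pow_mul]
        _ ≤ (4/3) ^ l := by gcongr; norm_num
        _ = A := hA.symm
    have c4 : (128/65:ℝ) ^ (2 * l - j) ≤ A ^ 5 := by
      calc (128/65:ℝ) ^ (2 * l - j) ≤ (128/65:ℝ) ^ (2 * l) :=
            pow_le_pow_right₀ (by norm_num) (by omega)
        _ = ((128/65:ℝ) ^ 2) ^ l := by rw [pow_mul]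
        _ ≤ ((4/3) ^ 5) ^ l := by gcongr; norm_num
        _ = A ^ 5 := by rw [hA, ← pow_mul, ← pow_mul, mul_comm]
    have c5 : 2 / (m:ℝ) * (4288/4225) ^ (2 * l - j) ≤ 32 * l / A ^ 2 * A := by gcongr
    have c6 : 16 / (9 * (m:ℝ) ^ 2) * (128/65) ^ (2 * l - j) ≤ 456 * (l:ℝ) ^ 2 / A ^ 4 * A ^ 5 := by
      gcongr
    have c7 : 32 * (l:ℝ) / A ^ 2 * A = 32 * l / A := by field_simp
    have c8 : 456 * (l:ℝ) ^ 2 / A ^ 4 * A ^ 5 = 456 * (l:ℝ) ^ 2 * A := by field_simp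
    linarith
  have hW2 : 16 / A ^ 2 * (1 + 32 * l / A + 456 * (l:ℝ) ^ 2 * A) ≤ 7824 * (l:ℝ) ^ 2 / A := by
    have d : 16 / A ^ 2 * (1 + 32 * l / A + 456 * (l:ℝ) ^ 2 * A)
        = (16 / A + 512 * l / A ^ 2 + 7296 * (l:ℝ) ^ 2) / A := by
      field_simp
      ring
    rw [d, div_le_div_iff_of_pos_right hA0]
    have d1 : 16 / A ≤ 16 * (l:ℝ) ^ 2 := by
      rw [div_le_iff₀ hA0]
      nlinarith [sq_nonneg (l:ℝ), mul_nonneg (sq_nonneg (l:ℝ)) (by linarith : (0:ℝ) ≤ A - 1)]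
    have d2 : 512 * l / A ^ 2 ≤ 512 * (l:ℝ) ^ 2 := by
      rw [div_le_iff₀ (by positivity)]
      have : 1 ≤ A ^ 2 := one_le_pow₀ hA1
      nlinarith [sq_nonneg (l:ℝ), mul_nonneg (sq_nonneg (l:ℝ)) (by linarith : (0:ℝ) ≤ A ^ 2 - 1)]
    linarith
  rw [Tf_eq]
  calc ((2 * l).choose (2 * l - j) * (n1 - 2 * l).choose (2 * l - (2 * l - j)) : ℝ) *
        ((4/3:ℝ) ^ ((2 * l - j) * (2 * l - j - 1)) *
          (1 + 2 / (m:ℝ) * (4288/4225) ^ (2 * l - j)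
            + 16 / (9 * (m:ℝ) ^ 2) * (128/65) ^ (2 * l - j)))
      ≤ (((2 * l : ℕ):ℝ) * n1) ^ j * ((4/3:ℝ) ^ ((2 * l - j) * (2 * l - j - 1)) *
          (1 + 2 / (m:ℝ) * (4288/4225) ^ (2 * l - j)
            + 16 / (9 * (m:ℝ) ^ 2) * (128/65) ^ (2 * l - j))) := by gcongr
    _ = ((((2 * l : ℕ):ℝ) * n1) ^ j * (4/3:ℝ) ^ ((2 * l - j) * (2 * l - j - 1))) *
          (1 + 2 / (m:ℝ) * (4288/4225) ^ (2 * l - j)
            + 16 / (9 * (m:ℝ) ^ 2) * (128/65) ^ (2 * l - j)) := by ring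
    _ ≤ (4/3:ℝ) ^ (2 * l * (2 * l - 1)) * (1 + 32 * l / A + 456 * (l:ℝ) ^ 2 * A) := by gcongr
    _ ≤ (16 * (n1.choose (2 * l) : ℝ) / A ^ 2) * (1 + 32 * l / A + 456 * (l:ℝ) ^ 2 * A) := by
        gcongr
        rw [le_div_iff₀ (by positivity)]
        exact H3
    _ = (n1.choose (2 * l) : ℝ) * (16 / A ^ 2 * (1 + 32 * l / A + 456 * (l:ℝ) ^ 2 * A)) := by ring
    _ ≤ _ := by gcongr

/-- the second moment sum -/
lemma sumT {V : Type*} (l n1 m : ℕ) (A : ℝ) (hA : A = (4/3:ℝ) ^ l) (hl : 1 ≤ l)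
    (HL : 16000 * (l:ℝ) ^ 3 ≤ A) (H1 : A ^ 2 ≤ 2 * n1) (H2 : (n1:ℝ) ≤ (2 * l + 1) * A ^ 2)
    (hm : 1 ≤ m) (hk : 2 * l ≤ n1)
    (H3 : (4/3:ℝ) ^ (2 * l * (2 * l - 1)) * A ^ 2 ≤ 16 * (n1.choose (2 * l) : ℝ))
    (H4 : A ^ 2 ≤ 16 * l * m) (V1 I : Finset V) (c1 : V1.card = n1)
    (hI : I ∈ V1.powersetCard (2 * l)) :
    ∑ I' ∈ V1.powersetCard (2 * l), Tf (7/16) m (I ∩ I').card ≤ 2 * (n1.choose (2 * l) : ℝ) := by
  have hl' : (1:ℝ) ≤ l := by exact_mod_cast hl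
  have hA0 : 0 < A := by rw [hA]; positivity
  have hm' : (1:ℝ) ≤ m := by exact_mod_cast hm
  rw [Finset.mem_powersetCard] at hI
  have hl3 : (l:ℝ) ≤ (l:ℝ) ^ 3 := by
    nlinarith [sq_nonneg (l:ℝ), mul_nonneg (sq_nonneg (l:ℝ)) (by linarith : (0:ℝ) ≤ l - 1)]
  have hA1 : 1 ≤ A := by nlinarith
  have hmap : ∀ I' ∈ V1.powersetCard (2 * l), (I ∩ I').card ∈ Finset.range (2 * l + 1) := by
    intro I' _
    rw [Finset.mem_range]
    have := Finset.card_le_card (Finset.inter_subset_left (s₁ := I) (s₂ := I'))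
    omega
  rw [← Finset.sum_fiberwise_of_maps_to hmap]
  have e1 : ∀ i ∈ Finset.range (2 * l + 1),
      ∑ I' ∈ (V1.powersetCard (2 * l)).filter (fun I' => (I ∩ I').card = i),
        Tf (7/16) m (I ∩ I').card ≤ (if i = 0 then (n1.choose (2 * l) : ℝ) * (1 + 64 * l / A ^ 2)
          else (n1.choose (2 * l) : ℝ) * (7824 * (l:ℝ) ^ 2 / A)) := by
    intro i hi
    rw [Finset.mem_range] at hi
    have e2 : ∑ I' ∈ (V1.powersetCard (2 * l)).filter (fun I' => (I ∩ I').card = i),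
        Tf (7/16) m (I ∩ I').card
        = (((V1.powersetCard (2 * l)).filter (fun I' => (I ∩ I').card = i)).card : ℝ)
          * Tf (7/16) m i := by
      rw [← nsmul_eq_mul, ← Finset.sum_const]
      refine Finset.sum_congr rfl (fun I' hI' => ?_)
      rw [(Finset.mem_filter.1 hI').2]
    rw [e2]
    have hT0 : 0 ≤ Tf (7/16) m i := by rw [Tf_eq]; positivity
    by_cases h0 : i = 0
    · rw [if_pos h0]
      subst h0
      have c2 : (((V1.powersetCard (2 * l)).filter (fun I' => (I ∩ I').card = 0)).card : ℝ)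
          ≤ (n1.choose (2 * l) : ℝ) := by
        have := Finset.card_filter_le (V1.powersetCard (2 * l)) (fun I' => (I ∩ I').card = 0)
        rw [Finset.card_powersetCard, c1] at this
        exact_mod_cast this
      have c3 : Tf (7/16) m 0 ≤ 1 + 64 * l / A ^ 2 := by
        rw [Tf_eq]
        simp only [zero_mul, pow_zero, one_mul, mul_one]
        have c4 : 2 / (m:ℝ) ≤ 32 * l / A ^ 2 := by
          rw [div_le_div_iff₀ (by positivity) (by positivity)]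
          nlinarith
        have c5 : 16 / (9 * (m:ℝ) ^ 2) ≤ 2 / m := by
          rw [div_le_div_iff₀ (by positivity) (by positivity)]
          nlinarith
        have c6 : 64 * (l:ℝ) / A ^ 2 = 32 * l / A ^ 2 + 32 * l / A ^ 2 := by ring
        linarith
      gcongr
    · rw [if_neg h0]
      have c2 : (((V1.powersetCard (2 * l)).filter (fun I' => (I ∩ I').card = i)).card : ℝ)
          ≤ ((2 * l).choose i * (n1 - 2 * l).choose (2 * l - i) : ℝ) := by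
        have := count V1 I (2 * l) i hI.1 hI.2 (by omega)
        rw [c1] at this
        exact_mod_cast this
      refine le_trans (mul_le_mul_of_nonneg_right c2 hT0) ?_
      by_cases hil : i ≤ l
      · exact termB l n1 m i A hA hl HL H1 hm hk (by omega) hil
      · obtain ⟨j, hj, rfl⟩ : ∃ j, j < l ∧ i = 2 * l - j := ⟨2 * l - i, by omega, by omega⟩
        exact termC l n1 m j A hA hl HL H2 hm H3 H4 hj
  refine le_trans (Finset.sum_le_sum e1) ?_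
  rw [Finset.sum_range_succ']
  simp only [Nat.succ_ne_zero, if_false, if_true, Finset.sum_const, Finset.card_range, nsmul_eq_mul]
  have hfin : ((2 * l : ℕ) : ℝ) * (7824 * (l:ℝ) ^ 2 / A) + (1 + 64 * l / A ^ 2) ≤ 2 := by
    have f1 : ((2 * l : ℕ) : ℝ) * (7824 * (l:ℝ) ^ 2 / A) = 15648 * (l:ℝ) ^ 3 / A := by
      push_cast; ring
    have f2 : 64 * (l:ℝ) / A ^ 2 ≤ 64 * (l:ℝ) ^ 3 / A := by
      rw [div_le_div_iff₀ (by positivity) hA0]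
      have : (l:ℝ) * A ≤ (l:ℝ) ^ 3 * A ^ 2 := by
        calc (l:ℝ) * A ≤ (l:ℝ) ^ 3 * A := by gcongr
          _ = (l:ℝ) ^ 3 * (A * 1) := by ring
          _ ≤ (l:ℝ) ^ 3 * (A * A) := by gcongr
          _ = _ := by ring
      linarith
    have f3 : 15648 * (l:ℝ) ^ 3 / A + 64 * (l:ℝ) ^ 3 / A ≤ 1 := by
      rw [← add_div, div_le_one hA0]
      have : (0:ℝ) ≤ (l:ℝ) ^ 3 := by positivity
      linarith
    rw [f1]
    linarith
  have hC : (0:ℝ) ≤ (n1.choose (2 * l) : ℝ) := by positivity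
  calc ((2 * l : ℕ) : ℝ) * ((n1.choose (2 * l) : ℝ) * (7824 * (l:ℝ) ^ 2 / A))
        + (n1.choose (2 * l) : ℝ) * (1 + 64 * l / A ^ 2)
      = (n1.choose (2 * l) : ℝ) * (((2 * l : ℕ) : ℝ) * (7824 * (l:ℝ) ^ 2 / A)
        + (1 + 64 * l / A ^ 2)) := by ring
    _ ≤ (n1.choose (2 * l) : ℝ) * 2 := by gcongr
    _ = _ := by ring

end Pool.Agent.V7H19.BC
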